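import Pool.Agent.Lib.MP_f80667_ag.Pl.Dn

/-!
If the elements which are algebraic over `ℚ` are dense in `K`, they are dense in the finite extensions of `K` (which may be ramified).

* `dm_prim`: a finite extension is generated by an element which is algebraic over `ℚ` (Krasner's lemma).
* `dm_dense`, `dm_ur`: the density.
-/

open ZC BE PE CV Polynomial IntermediateField

namespace PL

section

variable {K Ω : Type} [Field K] [CharZero K] [Field Ω] [CharZero Ω] [Algebra K Ω] {L : Ld K Ω}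

omit [CharZero Ω] in
/-- Krasner's lemma. -/
private theorem dm_krasner [IsAlgClosure K Ω] {x y : Ω}
    (h : ∀ γ : Ω ≃ₐ[K] Ω, γ x ≠ x → L.nm (y - x) < L.nm (γ x - x)) : x ∈ K⟮y⟯ := by
  have halg : Algebra.IsAlgebraic K Ω := IsAlgClosure.isAlgebraic
  have hn : Normal K Ω := IsAlgClosure.normal K Ω
  have hG : IsGalois K Ω := ⟨⟩
  rw [← InfiniteGalois.fixedField_fixingSubgroup K⟮y⟯, mem_fixedField_iff]
  intro γ hγ
  by_contra hne
  have h1 := h γ hne
  have hy : γ y = y := (mem_fixingSubgroup_iff _ γ).1 hγ y (mem_adjoin_simple_self K y)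
  have h2 : L.nm (γ x - x) ≤ L.nm (y - x) := by
    have e : γ x - x = (y - x) - γ (y - x) := by
      rw [map_sub, hy]
      ring
    rw [e]
    exact (L.sub _ _).trans (max_le le_rfl (L.act _ _).le)
  exact absurd h1 (not_lt.2 h2)

omit [CharZero K] [CharZero Ω] in
private theorem dm_prod (m : Multiset Ω) (x : Ω) {ε : ℝ} (hε : 0 < ε)
    (h : ∀ y ∈ m, ε ≤ L.nm (x - y)) : ε ^ Multiset.card m ≤ L.nm (m.map (x - ·)).prod := by
  induction m using Multiset.induction_on with
  | empty =>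
    rw [Multiset.card_zero, pow_zero, Multiset.map_zero, Multiset.prod_zero, L.one]
  | cons a m ih =>
    rw [Multiset.map_cons, Multiset.prod_cons, L.mul, Multiset.card_cons, pow_succ, mul_comm]
    exact mul_le_mul (h a (Multiset.mem_cons_self _ _))
      (ih (fun y hy => h y (Multiset.mem_cons_of_mem hy))) (pow_nonneg hε.le _) (L.nonneg _)

/-- Close to a root `x` of a monic polynomial of degree `N` with coefficients in `K` there is a root of a monic polynomial of degree `N` with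
coefficients which are algebraic over `ℚ`. -/
private theorem dm_near [IsAlgClosure K Ω] (hD : DnK L) {P₀ : K[X]} (h0 : P₀.Monic) {x : Ω}
    (hx : aeval x P₀ = 0) {ε : ℝ} (hε : 0 < ε) : ∃ y : Ω, IsAlgebraic ℚ y ∧ L.nm (y - x) < ε ∧
      ∃ P : K[X], P.Monic ∧ P.natDegree = P₀.natDegree ∧ aeval y P = 0 := by
  have hac : IsAlgClosed Ω := IsAlgClosure.isAlgClosed K
  set N := P₀.natDegree with hN
  by_cases hN0 : N = 0
  · have h1 : P₀ = 1 := by
      exact h0.natDegree_eq_zero.1 hN0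
    rw [h1, map_one] at hx
    exact absurd hx one_ne_zero
  set B : ℝ := max 1 (L.nm x) ^ N with hB
  have hB1 : 0 < B := pow_pos (lt_of_lt_of_le one_pos (le_max_left _ _)) _
  have hδ : 0 < ε ^ N / B := div_pos (pow_pos hε _) hB1
  have hA : ∀ i : Fin N, ∃ b : algebraicClosure ℚ K,
      L.nm (algebraMap K Ω ((b : K) - P₀.coeff i)) < ε ^ N / B := by
    intro i
    obtain ⟨b, hb, hb'⟩ := hD (P₀.coeff i) _ hδ
    exact ⟨⟨b, mem_algebraicClosure_iff.2 hb⟩, hb'⟩
  choose b hb using hA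
  set Q : (algebraicClosure ℚ K)[X] := X ^ N + ∑ i : Fin N, C (b i) * X ^ (i : ℕ) with hQ
  have hdeg : (∑ i : Fin N, C (b i) * X ^ (i : ℕ)).degree < (N : WithBot ℕ) := degree_sum_fin_lt b
  have hQm : Q.Monic := monic_X_pow_add hdeg
  have hQd : Q.natDegree = N := by
    rw [hQ, natDegree_add_eq_left_of_degree_lt (by rwa [degree_X_pow]), natDegree_X_pow]
  set P : K[X] := Q.map (algebraMap (algebraicClosure ℚ K) K) with hP
  have hPm : P.Monic := hQm.map _
  have hPd : P.natDegree = N := by rw [hP, hQm.natDegree_map, hQd]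
  -- the value at `x` is small
  have hval : L.nm (aeval x P) < ε ^ N := by
    have e1 : aeval x P = aeval x P - aeval x P₀ := by rw [hx, sub_zero]
    have e2 : aeval x P = x ^ N + ∑ i : Fin N, algebraMap K Ω (b i : K) * x ^ (i : ℕ) := by
      rw [hP, hQ, Polynomial.map_add, Polynomial.map_pow, map_X, Polynomial.map_sum, map_add,
        map_pow, aeval_X, map_sum]
      congr 1
      refine Finset.sum_congr rfl fun i _ => ?_
      rw [Polynomial.map_mul, Polynomial.map_pow, map_X, map_C, map_mul, map_pow, aeval_X, aeval_C]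
      rfl
    have e3 : aeval x P₀ = x ^ N + ∑ i : Fin N, algebraMap K Ω (P₀.coeff i) * x ^ (i : ℕ) := by
      conv_lhs => rw [h0.as_sum]
      rw [map_add, map_pow, aeval_X, map_sum, ← hN, ← Fin.sum_univ_eq_sum_range
        (fun i => aeval x (C (P₀.coeff i) * X ^ i))]
      congr 1
      refine Finset.sum_congr rfl fun i _ => ?_
      rw [map_mul, map_pow, aeval_X, aeval_C]
    have e4 : aeval x P = ∑ i : Fin N, algebraMap K Ω ((b i : K) - P₀.coeff i) * x ^ (i : ℕ) := by
      rw [e1, e2, e3, add_sub_add_left_eq_sub, ← Finset.sum_sub_distrib]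
      refine Finset.sum_congr rfl fun i _ => ?_
      rw [map_sub]
      ring
    have hne : Nonempty (Fin N) := ⟨⟨0, Nat.pos_of_ne_zero hN0⟩⟩
    obtain ⟨i₀, hi₀⟩ := Finite.exists_max fun i : Fin N =>
      L.nm (algebraMap K Ω ((b i : K) - P₀.coeff i))
    have h2 : L.nm (aeval x P) ≤ L.nm (algebraMap K Ω ((b i₀ : K) - P₀.coeff i₀)) * B := by
      rw [e4]
      refine L.sum_le _ _ (mul_nonneg (L.nonneg _) hB1.le) fun i _ => ?_
      rw [L.mul, L.pow]
      refine mul_le_mul (hi₀ i) ?_ (pow_nonneg (L.nonneg _) _) (L.nonneg _)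
      rw [hB]
      exact (pow_le_pow_left₀ (L.nonneg _) (le_max_right _ _) _).trans
        (pow_le_pow_right₀ (le_max_left _ _) i.2.le)
    exact h2.trans_lt ((lt_div_iff₀ hB1).1 (hb i₀))
  -- a root is close to `x`
  have hsp : (P.map (algebraMap K Ω)).Splits := IsAlgClosed.splits _
  have h1 := hsp.aeval_eq_prod_aroots_of_monic hPm x
  have hcard : Multiset.card (P.aroots Ω) = N := by
    rw [← hPd, ← hPm.natDegree_map (algebraMap K Ω)]
    exact hsp.natDegree_eq_card_roots.symm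
  obtain ⟨y, hy, hyx⟩ : ∃ y ∈ P.aroots Ω, L.nm (x - y) < ε := by
    by_contra hcon
    push Not at hcon
    have h2 := dm_prod (L := L) (P.aroots Ω) x hε hcon
    rw [hcard, ← h1] at h2
    exact absurd hval (not_lt.2 h2)
  have hy0 : aeval y P = 0 := (mem_aroots.1 hy).2
  refine ⟨y, ?_, by rwa [L.sub_comm], P, hPm, hPd, hy0⟩
  have h3 : IsAlgebraic (algebraicClosure ℚ K) y := by
    refine ⟨Q, hQm.ne_zero, ?_⟩
    rw [hP, aeval_map_algebraMap] at hy0
    exact hy0
  have h4 : Algebra.IsAlgebraic ℚ (algebraicClosure ℚ K) := ⟨fun z =>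
    (isAlgebraic_algebraMap_iff (R := ℚ) (A := K)
      (algebraMap (algebraicClosure ℚ K) K).injective).1 (mem_algebraicClosure_iff.1 z.2)⟩
  exact h3.restrictScalars ℚ

/-- A finite extension of `K` is generated by an element which is algebraic over `ℚ`. -/
theorem dm_prim [IsAlgClosure K Ω] (hD : DnK L) {M : IntermediateField K Ω}
    (hM : FiniteDimensional K M) : ∃ y : Ω, IsAlgebraic ℚ y ∧ K⟮y⟯ = M := by
  classical
  have halg : Algebra.IsAlgebraic K Ω := IsAlgClosure.isAlgebraic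
  obtain ⟨α, hα⟩ := Field.exists_primitive_element K M
  have hx : K⟮(α : Ω)⟯ = M := by
    rw [← lift_adjoin_simple, hα, lift_top]
  set x : Ω := (α : Ω) with hxα
  have hxi : IsIntegral K x := (halg.isAlgebraic x).isIntegral
  -- the distance to the conjugates
  obtain ⟨ε, hε, hmin⟩ : ∃ ε : ℝ, 0 < ε ∧ ∀ γ : Ω ≃ₐ[K] Ω, γ x ≠ x → ε ≤ L.nm (γ x - x) := by
    have hfin : (Set.range fun γ : Ω ≃ₐ[K] Ω => γ x).Finite := by
      refine ((minpoly K x).aroots Ω).toFinset.finite_toSet.subset ?_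
      rintro _ ⟨γ, rfl⟩
      rw [Finset.mem_coe, Multiset.mem_toFinset, mem_aroots]
      exact ⟨minpoly.ne_zero hxi, by
        rw [aeval_algEquiv, AlgHom.comp_apply, minpoly.aeval]
        exact map_zero _⟩
    by_cases he : ((Set.range fun γ : Ω ≃ₐ[K] Ω => γ x) \ {x}).Nonempty
    · obtain ⟨z, hz, hz'⟩ := Set.exists_min_image _ (fun z => L.nm (z - x))
        (hfin.subset Set.sdiff_subset) he
      refine ⟨L.nm (z - x), L.pos (sub_ne_zero.2 hz.2), fun γ hγ => hz' _ ⟨⟨γ, rfl⟩, hγ⟩⟩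
    · exact ⟨1, one_pos, fun γ hγ => absurd ⟨γ x, ⟨γ, rfl⟩, hγ⟩ he⟩
  obtain ⟨y, hy, hyx, P, hPm, hPd, hPy⟩ := dm_near hD (minpoly.monic hxi) (minpoly.aeval K x) hε
  refine ⟨y, hy, ?_⟩
  have hxy : x ∈ K⟮y⟯ := dm_krasner (L := L) fun γ hγ => hyx.trans_le (hmin γ hγ)
  have hyi : IsIntegral K y := (halg.isAlgebraic y).isIntegral
  have hfy : FiniteDimensional K K⟮y⟯ := adjoin.finiteDimensional hyi
  have hle : K⟮x⟯ ≤ K⟮y⟯ := adjoin_simple_le_iff.2 hxy
  have hrk : Module.finrank K K⟮y⟯ ≤ Module.finrank K K⟮x⟯ := by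
    rw [adjoin.finrank hyi, adjoin.finrank hxi, ← hPd]
    exact natDegree_le_of_dvd (minpoly.dvd K y hPy) hPm.ne_zero
  rw [← eq_of_le_of_finrank_le hle hrk, hx]

private theorem dm_adj (h : DnK L) {s : Ω} (hs : IsAlgebraic ℚ s) {x : Ω}
    (hx : x ∈ Algebra.adjoin K {s}) :
    ∀ ε : ℝ, 0 < ε → ∃ y ∈ Algebra.adjoin K {s}, IsAlgebraic ℚ y ∧ L.nm (y - x) < ε := by
  induction hx using Algebra.adjoin_induction with
  | mem t ht =>
    intro ε hε
    refine ⟨t, Algebra.subset_adjoin ht, ?_, by rwa [sub_self, L.zero]⟩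
    rwa [Set.mem_singleton_iff.1 ht]
  | algebraMap r =>
    intro ε hε
    obtain ⟨y, hy, hy'⟩ := h r ε hε
    refine ⟨algebraMap K Ω y, Subalgebra.algebraMap_mem _ y, hy.algebraMap, ?_⟩
    rwa [← map_sub]
  | add a b ha hb iha ihb =>
    intro ε hε
    obtain ⟨y, hy, hya, hy'⟩ := iha ε hε
    obtain ⟨z, hz, hza, hz'⟩ := ihb ε hε
    refine ⟨y + z, add_mem hy hz, hya.add hza, ?_⟩
    rw [add_sub_add_comm]
    exact (L.add _ _).trans_lt (max_lt hy' hz')
  | mul a b ha hb iha ihb =>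
    intro ε hε
    have hb0 : 0 < L.nm b + 1 := by linarith [L.nonneg b]
    obtain ⟨y, hy, hya, hy'⟩ := iha (ε / (L.nm b + 1)) (div_pos hε hb0)
    have hy0 : 0 < L.nm y + 1 := by linarith [L.nonneg y]
    obtain ⟨z, hz, hza, hz'⟩ := ihb (ε / (L.nm y + 1)) (div_pos hε hy0)
    refine ⟨y * z, mul_mem hy hz, hya.mul hza, ?_⟩
    have e : y * z - a * b = y * (z - b) + (y - a) * b := by ring
    rw [e]
    refine (L.add _ _).trans_lt (max_lt ?_ ?_)
    · rw [L.mul]
      refine (mul_le_mul_of_nonneg_right (show L.nm y ≤ L.nm y + 1 by linarith)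
        (L.nonneg _)).trans_lt ?_
      rw [mul_comm]
      exact (lt_div_iff₀ hy0).1 hz'
    · rw [L.mul]
      refine (mul_le_mul_of_nonneg_left (show L.nm b ≤ L.nm b + 1 by linarith)
        (L.nonneg _)).trans_lt ?_
      exact (lt_div_iff₀ hb0).1 hy'

/-- The elements of a finite extension which are algebraic over `ℚ` are dense. -/
theorem dm_ex [IsAlgClosure K Ω] (hD : DnK L) {M : IntermediateField K Ω}
    (hM : FiniteDimensional K M) {x : Ω} (hx : x ∈ M) {ε : ℝ} (hε : 0 < ε) :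
    ∃ y ∈ M, IsAlgebraic ℚ y ∧ L.nm (y - x) < ε := by
  have halg : Algebra.IsAlgebraic K Ω := IsAlgClosure.isAlgebraic
  obtain ⟨s, hs, rfl⟩ := dm_prim hD hM
  have h3 : (K⟮s⟯).toSubalgebra = Algebra.adjoin K {s} :=
    adjoin_toSubalgebra_of_isAlgebraic fun z _ => halg.isAlgebraic z
  have hx' : x ∈ Algebra.adjoin K {s} := by
    rw [← h3]
    exact hx
  obtain ⟨y, hy, hya, hyx⟩ := dm_adj hD hs hx' ε hε
  refine ⟨y, ?_, hya, hyx⟩
  rw [← h3] at hy
  exact hy

theorem dm_dense [IsAlgClosure K Ω] (hD : DnK L) {M : IntermediateField K Ω}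
    (hM : FiniteDimensional K M) : (naL L M).Dn := by
  rintro ⟨x, hx⟩ - ε hε
  obtain ⟨y, hy, hya, hy'⟩ := dm_ex hD hM hx hε
  refine ⟨⟨y, hy⟩, ?_, hy'⟩
  exact (isAlgebraic_algebraMap_iff (R := ℚ) (A := Ω)
    (algebraMap M Ω).injective (a := (⟨y, hy⟩ : M))).1 hya

end

end PL
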