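import Pool.Agent.Lib.MP_f80667_ag.Pl.F

/-!
Fields with a nonarchimedean absolute value: continuity of polynomials.

* `Na E`: a nonarchimedean absolute value of `E`. `Nh A H`: a norm on the vector space `H`.
* `Na.Dn`: the elements which are algebraic over `ℚ` are dense.
-/

open Polynomial

namespace PL

/-- A nonarchimedean absolute value. -/
structure Na (E : Type) [Field E] where
  /-- the absolute value -/
  nm : E → ℝ
  nonneg : ∀ x, 0 ≤ nm x
  zero_iff : ∀ x, nm x = 0 ↔ x = 0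
  mul : ∀ x y, nm (x * y) = nm x * nm y
  add : ∀ x y, nm (x + y) ≤ max (nm x) (nm y)

namespace Na

variable {E : Type} [Field E] (A : Na E)

theorem one : A.nm 1 = 1 := by
  have h1 := A.mul 1 1
  rw [mul_one] at h1
  have h2 : A.nm 1 ≠ 0 := fun h => one_ne_zero ((A.zero_iff 1).1 h)
  exact (mul_right_cancel₀ h2 (by rw [one_mul, ← h1])).symm

theorem neg (x : E) : A.nm (-x) = A.nm x := by
  have h1 : A.nm (-x) * A.nm (-x) = A.nm x * A.nm x := by
    rw [← A.mul, ← A.mul, neg_mul_neg]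
  exact (mul_self_inj (A.nonneg _) (A.nonneg _)).1 h1

theorem sub (x y : E) : A.nm (x - y) ≤ max (A.nm x) (A.nm y) := by
  have h1 := A.add x (-y)
  rwa [A.neg, ← sub_eq_add_neg] at h1

theorem pow (x : E) (n : ℕ) : A.nm (x ^ n) = A.nm x ^ n := by
  induction n with
  | zero => rw [pow_zero, pow_zero, A.one]
  | succ n ih => rw [pow_succ, pow_succ, A.mul, ih]

/-- The elements which are algebraic over `ℚ` are dense in the ring of integers. -/
def Dn [CharZero E] : Prop :=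
  ∀ x, A.nm x ≤ 1 → ∀ ε : ℝ, 0 < ε → ∃ y, IsAlgebraic ℚ y ∧ A.nm (y - x) < ε

/-- The ring of integers which are algebraic over `ℚ`. -/
def Ra [CharZero E] : Subring E where
  carrier := {x | A.nm x ≤ 1 ∧ IsAlgebraic ℚ x}
  mul_mem' {a b} ha hb := ⟨by
    rw [A.mul]
    exact mul_le_one₀ ha.1 (A.nonneg _) hb.1, ha.2.mul hb.2⟩
  one_mem' := ⟨A.one.le, isAlgebraic_one⟩
  add_mem' {a b} ha hb := ⟨(A.add a b).trans (max_le ha.1 hb.1), ha.2.add hb.2⟩
  zero_mem' := ⟨((A.zero_iff 0).2 rfl).le.trans zero_le_one, isAlgebraic_zero⟩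
  neg_mem' {a} ha := ⟨(A.neg a).le.trans ha.1, ha.2.neg⟩

private theorem gPos {ϖ : E} (h0 : ϖ ≠ 0) : 0 < A.nm ϖ :=
  lt_of_le_of_ne (A.nonneg ϖ) fun h => h0 ((A.zero_iff ϖ).1 h.symm)

private theorem gInj {ϖ : E} (h0 : ϖ ≠ 0) (h1 : A.nm ϖ < 1) :
    Function.Injective fun k : ℕ => ϖ ^ (k + 1) := by
  intro k l h
  have h2 : A.nm ϖ ^ (k + 1) = A.nm ϖ ^ (l + 1) := by
    rw [← A.pow, ← A.pow]
    exact congrArg A.nm h
  have h3 := (pow_right_strictAnti₀ (A.gPos h0) h1).injective h2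
  omega

/-- Proof: `0, ϖ, ϖ ^ 2, ..` have different absolute values. -/
theorem inf_int {ϖ : E} (h0 : ϖ ≠ 0) (h1 : A.nm ϖ < 1) : {x : E | A.nm x ≤ 1}.Infinite := by
  refine Set.infinite_of_injective_forall_mem (A.gInj h0 h1) fun k => ?_
  rw [Set.mem_setOf_eq, A.pow]
  exact pow_le_one₀ (A.nonneg ϖ) h1.le

/-- Proof: `inf_int` times `ϖ`. -/
theorem inf_sml {ϖ : E} (h0 : ϖ ≠ 0) (h1 : A.nm ϖ < 1) : {x : E | A.nm x ≤ A.nm ϖ}.Infinite := by
  refine Set.infinite_of_injective_forall_mem (A.gInj h0 h1) fun k => ?_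
  rw [Set.mem_setOf_eq, A.pow]
  exact pow_le_of_le_one (A.nonneg ϖ) h1.le (Nat.succ_ne_zero k)

end Na

/-- A norm on the vector space `H`. -/
structure Nh {E : Type} [Field E] (A : Na E) (H : Type) [AddCommGroup H] [Module E H] where
  /-- the norm -/
  n : H → ℝ
  nonneg : ∀ h, 0 ≤ n h
  smul : ∀ (a : E) (h : H), n (a • h) = A.nm a * n h
  add : ∀ h h', n (h + h') ≤ max (n h) (n h')
  zero : ∀ h, n h = 0 → h = 0

namespace Nh

variable {E H : Type} [Field E] [AddCommGroup H] [Module E H] {A : Na E} (Q : Nh A H)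

private theorem gNeg (h : H) : Q.n (-h) = Q.n h := by
  have h1 := Q.smul (-1) h
  rwa [neg_one_smul, A.neg, A.one, one_mul] at h1

private theorem gPow {x y : E} (hx : A.nm x ≤ 1) (hy : A.nm y ≤ 1) (n : ℕ) :
    A.nm (x ^ n - y ^ n) ≤ A.nm (x - y) := by
  induction n with
  | zero =>
    rw [pow_zero, pow_zero, sub_self, (A.zero_iff 0).2 rfl]
    exact A.nonneg _
  | succ n ih =>
    have e : x ^ (n + 1) - y ^ (n + 1) = x ^ n * (x - y) + (x ^ n - y ^ n) * y := by ring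
    rw [e]
    refine (A.add _ _).trans (max_le ?_ ?_)
    · rw [A.mul, A.pow]
      exact mul_le_of_le_one_left (A.nonneg _) (pow_le_one₀ (A.nonneg x) hx)
    · rw [A.mul]
      exact (mul_le_of_le_one_right (A.nonneg _) hy).trans ih

/-- Proof: `(x ^ i - y ^ i) • c i`, `nm (x ^ i - y ^ i) ≤ nm (x - y)` for integral `x`, `y`; `B` is a bound of the norms of the `c i`. -/
theorem pe_lip (N : ℕ) (c : ℕ → H) : ∃ B : ℝ, 0 < B ∧ ∀ x y : E, A.nm x ≤ 1 → A.nm y ≤ 1 →
    Q.n (pe N c x - pe N c y) ≤ B * A.nm (x - y) := by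
  have hterm : ∀ (i : ℕ) (x y : E), A.nm x ≤ 1 → A.nm y ≤ 1 →
      Q.n (x ^ i • c i - y ^ i • c i) ≤ Q.n (c i) * A.nm (x - y) := by
    intro i x y hx hy
    rw [← sub_smul, Q.smul, mul_comm]
    exact mul_le_mul_of_nonneg_left (gPow hx hy i) (Q.nonneg _)
  induction N with
  | zero =>
    refine ⟨Q.n (c 0) + 1, by linarith [Q.nonneg (c 0)], fun x y hx hy => ?_⟩
    unfold pe
    rw [Finset.sum_range_one, Finset.sum_range_one]
    refine (hterm 0 x y hx hy).trans (mul_le_mul_of_nonneg_right ?_ (A.nonneg _))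
    linarith
  | succ N ih =>
    obtain ⟨B, hB, h⟩ := ih
    refine ⟨B + Q.n (c (N + 1)), by linarith [Q.nonneg (c (N + 1))], fun x y hx hy => ?_⟩
    have e : pe (N + 1) c x - pe (N + 1) c y =
        (pe N c x - pe N c y) + (x ^ (N + 1) • c (N + 1) - y ^ (N + 1) • c (N + 1)) := by
      unfold pe
      rw [Finset.sum_range_succ _ (N + 1), Finset.sum_range_succ _ (N + 1)]
      abel
    rw [e]
    refine (Q.add _ _).trans (max_le ?_ ?_)
    · refine (h x y hx hy).trans (mul_le_mul_of_nonneg_right ?_ (A.nonneg _))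
      linarith [Q.nonneg (c (N + 1))]
    · refine (hterm (N + 1) x y hx hy).trans (mul_le_mul_of_nonneg_right ?_ (A.nonneg _))
      linarith

/-- A function on the integers which is continuous and agrees with a polynomial on `Ra` agrees with it everywhere. Proof: for `nm x ≤ 1` and
`ε > 0` choose `y` algebraic, close to `x` (so `nm y ≤ 1`): `n (f x - pe N c x) < ε` by `hf` and `pe_lip`; so it is `0`. -/
theorem dn_ext [CharZero E] (hD : A.Dn) {f : E → H} {N : ℕ} {c : ℕ → H}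
    (hf : ∀ x, A.nm x ≤ 1 → ∀ ε : ℝ, 0 < ε → ∃ δ : ℝ, 0 < δ ∧ ∀ y, A.nm y ≤ 1 → A.nm (y - x) < δ →
      Q.n (f y - f x) < ε)
    (h : ∀ y ∈ A.Ra, f y = pe N c y) {x : E} (hx : A.nm x ≤ 1) : f x = pe N c x := by
  obtain ⟨B, hB, hlip⟩ := Q.pe_lip N c
  have key : ∀ ε : ℝ, 0 < ε → Q.n (f x - pe N c x) ≤ ε := by
    intro ε hε
    obtain ⟨δ, hδ, hf'⟩ := hf x hx ε hε
    obtain ⟨y, hy, hyx⟩ := hD x hx (min δ (min (ε / B) 1))
      (lt_min hδ (lt_min (div_pos hε hB) one_pos))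
    have h1 : A.nm (y - x) < δ := hyx.trans_le (min_le_left _ _)
    have h2 : A.nm (y - x) < ε / B := hyx.trans_le ((min_le_right _ _).trans (min_le_left _ _))
    have h3 : A.nm (y - x) < 1 := hyx.trans_le ((min_le_right _ _).trans (min_le_right _ _))
    have h4 : A.nm y ≤ 1 := by
      have h5 := A.add (y - x) x
      rw [sub_add_cancel] at h5
      exact h5.trans (max_le h3.le hx)
    have h5 := h y ⟨h4, hy⟩
    have e : f x - pe N c x = -(f y - f x) + (pe N c y - pe N c x) := by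
      rw [h5]
      abel
    rw [e]
    refine (Q.add _ _).trans (max_le ?_ ?_)
    · rw [Q.gNeg]
      exact (hf' y h4 h1).le
    · refine (hlip y x h4 hx).trans ?_
      have h6 : A.nm (y - x) * B ≤ ε := ((lt_div_iff₀ hB).1 h2).le
      rwa [mul_comm] at h6
  have h7 : Q.n (f x - pe N c x) = 0 :=
    le_antisymm (le_of_forall_pos_le_add fun ε hε => by
      rw [zero_add]
      exact key ε hε) (Q.nonneg _)
  exact sub_eq_zero.1 (Q.zero _ h7)

end Nh

end PL
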