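import Pool.Agent.Lib.MP_f80667_ag.Cv.LdI
import Pool.Agent.Lib.MP_f80667_ag.Pe.Ur
import Pool.Agent.Lib.MP_f80667_ag.Pl.G

/-!
The elements which are algebraic over `ℚ` are dense in the unramified extensions of the completions of number fields.

* `naL L M`: the absolute value of `L` on the subfield `M`.
* `DnK L`: the elements of `K` which are algebraic over `ℚ` are dense in `K`.
-/

open ZC BE PE CV Polynomial IntermediateField IsDedekindDomain NumberField

namespace PL

/-- The absolute value on a subfield. -/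
def naL {K Ω : Type} [Field K] [Field Ω] [Algebra K Ω] (L : Ld K Ω) (M : IntermediateField K Ω) :
    Na M where
  nm x := L.nm (x : Ω)
  nonneg x := L.nonneg _
  zero_iff x := by rw [L.zero_iff, ZeroMemClass.coe_eq_zero]
  mul x y := by rw [MulMemClass.coe_mul, L.mul]
  add x y := by
    rw [AddMemClass.coe_add]
    exact L.add _ _

/-- The elements of `K` which are algebraic over `ℚ` are dense in `K`. -/
def DnK {K Ω : Type} [Field K] [CharZero K] [Field Ω] [Algebra K Ω] (L : Ld K Ω) : Prop :=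
  ∀ x : K, ∀ ε : ℝ, 0 < ε → ∃ y : K, IsAlgebraic ℚ y ∧ L.nm (algebraMap K Ω (y - x)) < ε

section

variable {K Ω : Type} [Field K] [CharZero K] [Field Ω] [CharZero Ω] [Algebra K Ω] {L : Ld K Ω}

omit [CharZero K] in
private theorem dn_te {N : ℕ} (hN : N ≠ 0) {t : Ω} (ht : t ∈ L.Te N) : IsAlgebraic ℚ t := by
  refine ⟨X ^ L.p ^ N - X, FiniteField.X_pow_card_sub_X_ne_zero ℚ (Nat.one_lt_pow hN L.pp.one_lt),
    ?_⟩
  rw [map_sub, map_pow, aeval_X, show t ^ L.p ^ N = t from ht, sub_self]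

/-- Proof: the elements which are limits of elements algebraic over `ℚ` form an algebra over `K`. -/
theorem dn_ex [IsAlgClosure K Ω] (h : DnK L) {N : ℕ} (hN : N ≠ 0) {x : Ω}
    (hx : x ∈ L.Ur ⊥ N) : ∀ ε : ℝ, 0 < ε → ∃ y ∈ L.Ur ⊥ N, IsAlgebraic ℚ y ∧ L.nm (y - x) < ε := by
  have halg : Algebra.IsAlgebraic K Ω := IsAlgClosure.isAlgebraic
  have h1 : x ∈ Algebra.adjoin K (L.Te N) := by
    have h2 : L.Ur ⊥ N = adjoin K (L.Te N) := by
      unfold Ld.Ur
      rw [bot_sup_eq]
    rw [h2] at hx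
    have h3 : (adjoin K (L.Te N)).toSubalgebra = Algebra.adjoin K (L.Te N) :=
      adjoin_toSubalgebra_of_isAlgebraic fun z _ => halg.isAlgebraic z
    rw [← h3]
    exact hx
  clear hx
  induction h1 using Algebra.adjoin_induction with
  | mem t ht =>
    intro ε hε
    exact ⟨t, Ld.te_ur ht, dn_te hN ht, by rwa [sub_self, L.zero]⟩
  | algebraMap r =>
    intro ε hε
    obtain ⟨y, hy, hy'⟩ := h r ε hε
    refine ⟨algebraMap K Ω y, (L.Ur ⊥ N).algebraMap_mem y, hy.algebraMap, ?_⟩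
    rwa [← map_sub]
  | add a b ha hb iha ihb =>
    intro ε hε
    obtain ⟨y, hy, hya, hy'⟩ := iha ε hε
    obtain ⟨z, hz, hza, hz'⟩ := ihb ε hε
    refine ⟨y + z, add_mem hy hz, hya.add hza, ?_⟩
    rw [add_sub_add_comm]
    exact (L.add _ _).trans_lt (max_lt hy' hz')
  | mul a b ha hb iha ihb =>
    intro ε hε
    have hb0 : 0 < L.nm b + 1 := by linarith [L.nonneg b]
    obtain ⟨y, hy, hya, hy'⟩ := iha (ε / (L.nm b + 1)) (div_pos hε hb0)
    have hy0 : 0 < L.nm y + 1 := by linarith [L.nonneg y]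
    obtain ⟨z, hz, hza, hz'⟩ := ihb (ε / (L.nm y + 1)) (div_pos hε hy0)
    refine ⟨y * z, mul_mem hy hz, hya.mul hza, ?_⟩
    have e : y * z - a * b = y * (z - b) + (y - a) * b := by ring
    rw [e]
    refine (L.add _ _).trans_lt (max_lt ?_ ?_)
    · rw [L.mul]
      refine (mul_le_mul_of_nonneg_right (show L.nm y ≤ L.nm y + 1 by linarith)
        (L.nonneg _)).trans_lt ?_
      rw [mul_comm]
      exact (lt_div_iff₀ hy0).1 hz'
    · rw [L.mul]
      refine (mul_le_mul_of_nonneg_left (show L.nm b ≤ L.nm b + 1 by linarith)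
        (L.nonneg _)).trans_lt ?_
      exact (lt_div_iff₀ hb0).1 hy'

/-- The elements of `Ur ⊥ N` which are algebraic over `ℚ` are dense. -/
theorem dn_ur [IsAlgClosure K Ω] (h : DnK L) {N : ℕ} (hN : N ≠ 0) :
    (naL L (L.Ur ⊥ N)).Dn := by
  rintro ⟨x, hx⟩ - ε hε
  obtain ⟨y, hy, hya, hy'⟩ := dn_ex h hN hx ε hε
  refine ⟨⟨y, hy⟩, ?_, hy'⟩
  exact (isAlgebraic_algebraMap_iff (R := ℚ) (A := Ω)
    (algebraMap (L.Ur ⊥ N) Ω).injective (a := (⟨y, hy⟩ : L.Ur ⊥ N))).1 hya

end

section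

variable {F : Type} [Field F] [NumberField F] {v : HeightOneSpectrum (𝓞 F)}

open HeightOneSpectrum in
private theorem dn_app (x c : v.adicCompletion F) :
    ∃ y : F, (algebraMap F (v.adicCompletion F) y - x) / c ∈ v.adicCompletionIntegers F := by
  have hopen : IsOpen {z : v.adicCompletion F |
      (z - x) / c ∈ v.adicCompletionIntegers F} := by
    have h5 : IsOpen {z : v.adicCompletion F | z ∈ v.adicCompletionIntegers F} := by
      exact Valued.isOpen_valuationSubring _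
    exact h5.preimage ((continuous_id.sub continuous_const).div_const c)
  obtain ⟨y, hy⟩ := (denseRange_algebraMap F v).exists_mem_open hopen ⟨x, by
    simp only [Set.mem_ofPred_eq, sub_self, zero_div]
    exact zero_mem _⟩
  exact ⟨y, hy⟩

/-- The elements of `F_v` which are algebraic over `ℚ` are dense. -/
theorem dn_fk {L : Ld (FK F v) (AlgebraicClosure (FK F v))}
    (hL : ∀ x : FK F v, L.nm (algebraMap _ _ x) ≤ 1 ↔ x ∈ Iv v) : DnK L := by
  intro x ε hε
  obtain ⟨k, hk⟩ := exists_pow_lt_of_lt_one hε L.lt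
  have hc : (L.p : FK F v) ^ k ≠ 0 := pow_ne_zero _ (Nat.cast_ne_zero.2 L.pp.ne_zero)
  obtain ⟨y, hy⟩ := dn_app (v := v) x ((L.p : FK F v) ^ k)
  have hy2 : IsAlgebraic ℚ (algebraMap F (FK F v) y) := by
    obtain ⟨f, hf, hf'⟩ := Algebra.IsAlgebraic.isAlgebraic (R := ℚ) y
    refine ⟨f, hf, ?_⟩
    have h2 := congr_arg (algebraMap F (FK F v)) hf'
    rw [map_zero, aeval_def, hom_eval₂] at h2
    rw [aeval_def, ← h2]
    congr 1
    exact Subsingleton.elim _ _
  refine ⟨algebraMap F (FK F v) y, hy2, ?_⟩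
  have h1 : L.nm (algebraMap (FK F v) (AlgebraicClosure (FK F v))
      ((algebraMap F (FK F v) y - x) / (L.p : FK F v) ^ k)) ≤ 1 := (hL _).2 hy
  have hp : 0 < L.nm (L.p : AlgebraicClosure (FK F v)) ^ k := pow_pos L.p_pos _
  rw [map_div₀, L.div, map_pow, map_natCast, L.pow, div_le_one hp] at h1
  exact h1.trans_lt hk

end

end PL
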