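import Pool.Agent.Lib.MP_f80667_ag.Pl.K3

/-! Boundedness implies continuity. -/

open Polynomial

namespace PL

variable {E H σ : Type} [Field E] [AddCommGroup H] [Module E H]

variable {A : Na E} {Q : Nh A H} {S : Set (σ → E)} {D : ℕ}
  {P : (σ → E) → (σ → E) → H} {ϖ : E}

private theorem k4_neg (Q : Nh A H) (a : H) : Q.n (-a) = Q.n a := by
  rw [← neg_one_smul E a, Q.smul, A.neg, A.one, one_mul]

private theorem k4_sub (Q : Nh A H) (a b : H) : Q.n (a - b) ≤ max (Q.n a) (Q.n b) := by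
  have h := Q.add a (-b)
  rwa [k4_neg, ← sub_eq_add_neg] at h

/-- **Boundedness implies continuity.** Proof: by `stp` for `p = ϖ` and induction on `j`, for all integral `w`, `x`:
`n (P (c + ϖ ^ (j + 1) w) x - P c x) ≤ K (nm ϖ) ^ j` with `K = max C B` (`C` from `bdd`, `n (h - h') ≤ max`). Given `ε` choose `j` with
`K (nm ϖ) ^ j < ε` and `δ = nm (ϖ ^ (j + 1))`; `w = (c' - c) / ϖ ^ (j + 1)`. -/
theorem Lb.lp [DecidableEq σ] (h : Lb Q S D P) (h0 : ϖ ≠ 0) (h1 : A.nm ϖ < 1)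
    (hS : ∀ c ∈ S, Ds A ϖ c ⊆ S) : Lp Q S D P := by
  obtain ⟨B, hB0, hB⟩ := h.par h0 h1 hS
  obtain ⟨C, hC⟩ := h.bdd
  have hϖ : 0 < A.nm ϖ := lt_of_le_of_ne (A.nonneg _) fun e => h0 ((A.zero_iff _).1 e.symm)
  have hK0 : 0 < max C B := lt_max_of_lt_right hB0
  have key : ∀ c ∈ S, ∀ j : ℕ, ∀ w x : σ → E, (∀ i, A.nm (w i) ≤ 1) → (∀ i, A.nm (x i) ≤ 1) →
      Q.n (P (c + (ϖ ^ (j + 1)) • w) x - P c x) ≤ max C B * A.nm ϖ ^ j := by
    intro c hc j
    induction j with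
    | zero =>
      intro w x hw hx
      rw [zero_add, pow_one, pow_zero, mul_one]
      have h2 : c + ϖ • w ∈ S := by
        refine hS c hc fun i => ?_
        rw [Pi.add_apply, add_sub_cancel_left, Pi.smul_apply, smul_eq_mul, A.mul]
        exact mul_le_of_le_one_right (A.nonneg _) (hw i)
      refine (k4_sub Q _ _).trans (max_le ?_ ?_)
      · exact (hC _ h2 x hx).trans (le_max_left _ _)
      · exact (hC _ hc x hx).trans (le_max_left _ _)
    | succ j ih =>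
      intro w x hw hx
      have hs : A.nm (ϖ ^ (j + 1)) ≤ A.nm ϖ := by
        rw [A.pow, pow_succ]
        exact mul_le_of_le_one_left (A.nonneg _) (pow_le_one₀ (A.nonneg _) h1.le)
      have h2 := h.stp hB0 h1 hS hB hc hw hx hs h1.le
      rw [← pow_succ'] at h2
      refine h2.trans (max_le ?_ ?_)
      · refine (mul_le_mul_of_nonneg_left (ih w x hw hx) (A.nonneg _)).trans (le_of_eq ?_)
        rw [pow_succ]
        ring
      · rw [A.pow]
        exact mul_le_mul_of_nonneg_right (le_max_right _ _) (pow_nonneg (A.nonneg _) _)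
  refine ⟨h.add, h.smul, h.line, fun c hc ε hε => ?_⟩
  obtain ⟨j, hj⟩ := exists_pow_lt_of_lt_one (div_pos hε hK0) h1
  have hj' : max C B * A.nm ϖ ^ j < ε := by
    rw [mul_comm]
    exact (lt_div_iff₀ hK0).1 hj
  have hp : ϖ ^ (j + 1) ≠ 0 := pow_ne_zero _ h0
  have hp' : 0 < A.nm (ϖ ^ (j + 1)) := by
    rw [A.pow]
    exact pow_pos hϖ _
  refine ⟨A.nm (ϖ ^ (j + 1)), hp', fun c' hc' hd i => ?_⟩
  have hw : ∀ k, A.nm (((ϖ ^ (j + 1))⁻¹ • (c' - c)) k) ≤ 1 := by
    intro k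
    have e1 : A.nm (ϖ ^ (j + 1)) * A.nm (((ϖ ^ (j + 1))⁻¹ • (c' - c)) k) =
        A.nm (c' k - c k) := by
      rw [← A.mul, Pi.smul_apply, smul_eq_mul, mul_inv_cancel_left₀ hp, Pi.sub_apply]
    have e2 := (hd k).le
    rw [← e1] at e2
    exact (mul_le_iff_le_one_right hp').1 e2
  have hx : ∀ k, A.nm ((Pi.single i 1 : σ → E) k) ≤ 1 := by
    intro k
    rw [Pi.single_apply]
    split_ifs
    · exact A.one.le
    · rw [(A.zero_iff 0).2 rfl]
      exact zero_le_one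
  have h3 := key c hc j _ _ hw hx
  rw [smul_inv_smul₀ hp, add_sub_cancel] at h3
  exact h3.trans_lt hj'

end PL
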