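import Pool.Agent.Lib.MP_f80667_ag.Pl.J
import Pool.Agent.Lib.MP_f80667_ag.Pl.K4

/-!
**The planar lemma in characteristic `0`** for bounded linear forms.
-/

open Polynomial

namespace PL

variable {E H σ : Type} [Field E] [AddCommGroup H] [Module E H] [DecidableEq σ] [Fintype σ]
  {A : Na E} {Q : Nh A H} {S : Set (σ → E)} {D : ℕ} {P : (σ → E) → (σ → E) → H} {ϖ : E}

/-- **The planar lemma in characteristic `0`**, with bounds in the place of the continuity. -/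
theorem Lb.polyE [CharZero E] (h : Lb Q S D P) (hD : A.Dn) (h0 : ϖ ≠ 0) (h1 : A.nm ϖ < 1)
    (hI : ∀ c ∈ S, ∀ i, A.nm (c i) ≤ 1) (hS : ∀ c ∈ S, Ds A ϖ c ⊆ S) :
    ∃ (T : Finset (σ →₀ ℕ)) (w : σ → (σ →₀ ℕ) → H), ∀ c ∈ S, ∀ x : σ → E,
      P c x = ∑ i, ∑ e ∈ T, (x i * ∏ j, c j ^ e j) • w i e :=
  (h.lp h0 h1 hS).polyE hD h0 h1 hI hS

/-- **The planar lemma in characteristic `0`**, with bounds in the place of the continuity. -/
theorem Lb.poly [CharZero E] (h : Lb Q S D P) (hD : A.Dn) (h0 : ϖ ≠ 0) (h1 : A.nm ϖ < 1)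
    (hI : ∀ c ∈ S, ∀ i, A.nm (c i) ≤ 1) (hS : ∀ c ∈ S, Ds A ϖ c ⊆ S) (i : σ) :
    Ph S (fun c => P c (Pi.single i 1)) :=
  (h.lp h0 h1 hS).poly hD h0 h1 hI hS i

end PL
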