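import Mathlib

/-!
Polynomials with coefficients in a vector space `H`.

* `pe N c z`: the value at `z` of the polynomial with the coefficients `c 0, .., c N`.
-/

open Polynomial

namespace PL

variable {κ H : Type} [Field κ] [AddCommGroup H] [Module κ H]

/-- The value at `z` of the polynomial with the coefficients `c 0, .., c N`. -/
def pe (N : ℕ) (c : ℕ → H) (z : κ) : H := ∑ i ∈ Finset.range (N + 1), z ^ i • c i

/-- Proof: the polynomial with the coefficients `θ (c i)`. -/
theorem dual_pe (θ : H →ₗ[κ] κ) (N : ℕ) (c : ℕ → H) :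
    ∃ q : κ[X], q.natDegree ≤ N ∧ ∀ z, θ (pe N c z) = q.eval z := by
  refine ⟨∑ i ∈ Finset.range (N + 1), C (θ (c i)) * X ^ i, ?_, fun z => ?_⟩
  · refine natDegree_sum_le_of_forall_le _ _ fun i hi => ?_
    refine le_trans (natDegree_C_mul_X_pow_le _ _) ?_
    have := Finset.mem_range.1 hi
    omega
  · rw [pe, map_sum, eval_finsetSum]
    refine Finset.sum_congr rfl fun i _ => ?_
    rw [map_smul, eval_mul, eval_C, eval_pow, eval_X, smul_eq_mul, mul_comm]

/-- Proof: choose distinct `z_0, .., z_N` in `S`. Then `F z = ∑ r, (L_r z) • F z_r` on `S`, since this holds after every linear `θ` (Lagrange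
interpolation, `Lagrange.eq_interpolate`; linear forms separate the points of `H`: `Module.forall_dual_apply_eq_zero_iff`). Expand the `L_r`,
polynomials of degree at most `N`, in powers of `z`. -/
theorem pe_of_dual {S : Set κ} (hS : S.Infinite) {N : ℕ} {F : κ → H}
    (h : ∀ θ : H →ₗ[κ] κ, ∃ q : κ[X], q.natDegree ≤ N ∧ ∀ z ∈ S, θ (F z) = q.eval z) :
    ∃ c : ℕ → H, ∀ z ∈ S, F z = pe N c z := by
  classical
  obtain ⟨s, hsS, hsc⟩ := hS.exists_subset_card_eq (N + 1)
  have hinj : Set.InjOn (id : κ → κ) (s : Set κ) := Set.injOn_id _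
  have hdeg : ∀ r ∈ s, (Lagrange.basis s id r).natDegree < N + 1 := by
    intro r hr
    have h1 := Lagrange.degree_basis hinj hr
    have h2 := natDegree_eq_of_degree_eq_some h1
    omega
  have hF : ∀ z ∈ S, F z = ∑ r ∈ s, (Lagrange.basis s id r).eval z • F r := by
    intro z hz
    rw [← sub_eq_zero]
    refine (Module.forall_dual_apply_eq_zero_iff κ _).1 fun θ => ?_
    obtain ⟨q, hq, hqe⟩ := h θ
    have h3 : q.degree < (s.card : ℕ) := by
      rw [hsc]
      exact lt_of_le_of_lt degree_le_natDegree (by exact_mod_cast Nat.lt_succ_of_le hq)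
    have h4 := Lagrange.eq_interpolate hinj h3
    have h5 : q.eval z = ∑ r ∈ s, q.eval r * (Lagrange.basis s id r).eval z := by
      conv_lhs => rw [h4]
      rw [Lagrange.interpolate_apply, eval_finsetSum]
      refine Finset.sum_congr rfl fun r _ => ?_
      rw [eval_mul, eval_C]
      rfl
    rw [map_sub, map_sum, hqe z hz, h5, sub_eq_zero]
    refine Finset.sum_congr rfl fun r hr => ?_
    rw [map_smul, smul_eq_mul, hqe r (hsS hr), mul_comm]
  refine ⟨fun i => ∑ r ∈ s, (Lagrange.basis s id r).coeff i • F r, fun z hz => ?_⟩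
  rw [hF z hz, pe]
  simp only [Finset.smul_sum]
  rw [Finset.sum_comm]
  refine Finset.sum_congr rfl fun r hr => ?_
  rw [eval_eq_sum_range' (hdeg r hr), Finset.sum_smul]
  refine Finset.sum_congr rfl fun i _ => ?_
  rw [smul_smul, mul_comm]

/-- Proof: linear forms. -/
theorem pe_ext {S : Set κ} (hS : S.Infinite) {N N' : ℕ} {c c' : ℕ → H}
    (h : ∀ z ∈ S, pe N c z = pe N' c' z) (z : κ) : pe N c z = pe N' c' z := by
  rw [← sub_eq_zero]
  refine (Module.forall_dual_apply_eq_zero_iff κ _).1 fun θ => ?_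
  obtain ⟨q, -, hq⟩ := dual_pe θ N c
  obtain ⟨q', -, hq'⟩ := dual_pe θ N' c'
  have h1 : q = q' := by
    refine Polynomial.eq_of_infinite_eval_eq q q' (hS.mono fun x hx => ?_)
    change q.eval x = q'.eval x
    rw [← hq, ← hq', h x hx]
  rw [map_sub, hq, hq', h1, sub_self]

/-- Proof: linear forms, or directly: `z ^ i • c i` with `z = (t - a) / b`. -/
theorem pe_lin (N : ℕ) (c : ℕ → H) (a b : κ) :
    ∃ c' : ℕ → H, ∀ z, pe N c (a + b * z) = pe N c' z := by
  refine ⟨fun j => ∑ i ∈ Finset.range (N + 1), ((C a + C b * X) ^ i).coeff j • c i,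
    fun z => ?_⟩
  rw [pe, pe]
  simp only [Finset.smul_sum]
  rw [Finset.sum_comm]
  refine Finset.sum_congr rfl fun i hi => ?_
  have h1 : ((C a + C b * X) ^ i : κ[X]).natDegree < N + 1 := by
    have h2 : (C a + C b * X : κ[X]).natDegree ≤ 1 := by
      refine natDegree_add_le_of_degree_le ?_ ?_
      · rw [natDegree_C]
        exact Nat.zero_le _
      · exact le_trans (natDegree_C_mul_le _ _) natDegree_X_le
    have h3 := natDegree_pow_le_of_le i h2
    have := Finset.mem_range.1 hi
    omega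
  have h4 : (a + b * z) ^ i = ((C a + C b * X) ^ i : κ[X]).eval z := by
    rw [eval_pow, eval_add, eval_C, eval_mul, eval_C, eval_X]
  rw [h4, eval_eq_sum_range' h1, Finset.sum_smul]
  refine Finset.sum_congr rfl fun j _ => ?_
  rw [smul_smul, mul_comm]

end PL
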