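import Mathlib

/-!
Functions which are polynomials along the multiples of a vector.

* `Al N u F`: along the multiples of `u` the function `F` is a polynomial of degree at most `N`.
* `sh u`: the translation by `u`.
-/

open Polynomial

namespace PL

variable {G M : Type} [AddCommGroup G] [Field M]

/-- Along the multiples of `u` the function `F` is a polynomial of degree at most `N`. -/
def Al (N : ℕ) (u : G) (F : G → M) : Prop :=
  ∀ g : G, ∃ q : M[X], q.natDegree ≤ N ∧ ∀ k : ℕ, F (g + k • u) = q.eval (k : M)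

/-- The translation by `u`. -/
def sh (u : G) : Module.End M (G → M) := LinearMap.funLeft M M fun g => g + u

theorem sh_apply (u : G) (F : G → M) (g : G) : sh u F g = F (g + u) := rfl

theorem sh_mul (u v : G) : (sh u * sh v : Module.End M (G → M)) = sh (u + v) := by
  refine LinearMap.ext fun F => funext fun g => ?_
  rw [Module.End.mul_apply, sh_apply, sh_apply, sh_apply, add_assoc]

theorem sh_comm (u v : G) : Commute (sh u : Module.End M (G → M)) (sh v) := by
  change sh u * sh v = sh v * sh u
  rw [sh_mul, sh_mul, add_comm]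

theorem sh_pow (u : G) (k : ℕ) : (sh u ^ k : Module.End M (G → M)) = sh (k • u) := by
  induction k with
  | zero =>
    refine LinearMap.ext fun F => funext fun g => ?_
    rw [pow_zero, sh_apply, zero_smul, add_zero]
    rfl
  | succ k ih => rw [pow_succ, ih, sh_mul, succ_nsmul]

private theorem sh_sub_pow (u : G) (n : ℕ) (F : G → M) :
    ((sh u - 1 : Module.End M (G → M)) ^ n) F = (fwdDiff u)^[n] F := by
  have h1 : ∀ F : G → M, (sh u - 1 : Module.End M (G → M)) F = fwdDiff u F := fun F => rfl
  induction n with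
  | zero => rfl
  | succ n ih =>
    rw [pow_succ', Module.End.mul_apply, ih, h1, Function.iterate_succ_apply']

/-- Proof: `((sh u - 1)^(N+1) F) g` is the sum of `(-1)^(N+1-k) C(N+1, k) F (g + k u)` (`fwdDiff_iter_eq_sum_shift` or
`Commute.add_pow`, `sh_pow`), that is the `(N+1)`-st difference at `0` of a polynomial of degree at most `N`
(`Polynomial.fwdDiff_iter_eq_zero_of_degree_lt`). -/
theorem Al.nil {N : ℕ} {u : G} {F : G → M} (h : Al N u F) :
    ((sh u - 1 : Module.End M (G → M)) ^ (N + 1)) F = 0 := by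
  rw [sh_sub_pow]
  funext g
  obtain ⟨q, hq, hF⟩ := h g
  have h1 := congrFun (Polynomial.fwdDiff_iter_eq_zero_of_degree_lt
    (Nat.lt_succ_of_le hq : q.natDegree < N + 1)) 0
  rw [fwdDiff_iter_eq_sum_shift] at h1 ⊢
  refine Eq.trans (Finset.sum_congr rfl fun k _ => ?_) h1
  rw [hF k, zero_add, nsmul_one]

/-- Proof: `F (g + k u) = (sh u ^ k F) g = ((1 + (sh u - 1)) ^ k F) g`, the sum of the
`C(k, j) ((sh u - 1) ^ j F) g`, `j ≤ N`; `C(k, j)` is a polynomial in `k` of degree `j` (`descPochhammer`, `j!` invertible). -/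
theorem Al.of_nil [CharZero M] {N : ℕ} {u : G} {F : G → M}
    (h : ((sh u - 1 : Module.End M (G → M)) ^ (N + 1)) F = 0) : Al N u F := by
  rw [sh_sub_pow] at h
  have h0 : ∀ j, N < j → (fwdDiff u)^[j] F = 0 := by
    intro j hj
    obtain ⟨i, rfl⟩ := Nat.exists_eq_add_of_lt hj
    have h1 : N + i + 1 = i + (N + 1) := by omega
    rw [h1, Function.iterate_add_apply, h, ← sh_sub_pow, map_zero]
  intro g
  refine ⟨∑ j ∈ Finset.range (N + 1),
    C ((fwdDiff u)^[j] F g / (j.factorial : M)) * descPochhammer M j, ?_, fun k => ?_⟩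
  · refine Polynomial.natDegree_sum_le_of_forall_le _ _ fun j hj => ?_
    refine (Polynomial.natDegree_C_mul_le _ _).trans ?_
    rw [descPochhammer_natDegree]
    exact Nat.lt_succ_iff.1 (Finset.mem_range.1 hj)
  · rw [shift_eq_sum_fwdDiff_iter u F k g, Polynomial.eval_finsetSum]
    have e1 : ∑ j ∈ Finset.range (k + 1), k.choose j • (fwdDiff u)^[j] F g =
        ∑ j ∈ Finset.range (N + 1 + (k + 1)), k.choose j • (fwdDiff u)^[j] F g := by
      refine Finset.sum_subset (Finset.range_subset_range.2 (by omega)) fun j _ hj => ?_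
      rw [Finset.mem_range, not_lt] at hj
      rw [Nat.choose_eq_zero_of_lt hj, zero_smul]
    have e2 : ∑ j ∈ Finset.range (N + 1), k.choose j • (fwdDiff u)^[j] F g =
        ∑ j ∈ Finset.range (N + 1 + (k + 1)), k.choose j • (fwdDiff u)^[j] F g := by
      refine Finset.sum_subset (Finset.range_subset_range.2 (by omega)) fun j _ hj => ?_
      rw [Finset.mem_range, not_lt] at hj
      rw [h0 j hj, Pi.zero_apply, smul_zero]
    rw [e1, ← e2]
    refine Finset.sum_congr rfl fun j _ => ?_
    have hf : (j.factorial : M) ≠ 0 := Nat.cast_ne_zero.2 j.factorial_ne_zero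
    rw [Polynomial.eval_mul, Polynomial.eval_C, descPochhammer_eval_eq_descFactorial,
      Nat.descFactorial_eq_factorial_mul_choose, Nat.cast_mul, nsmul_eq_mul]
    field_simp

end PL
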