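import Pool.Agent.Lib.MP_f80667_ag.Pl.A

/-!
Elimination: two functions `U`, `V` of two variables such that `U` is a polynomial in the first variable, `V` in the second and `U + t V`
along the lines of slope `t`.
-/

open Polynomial

namespace PL

variable {R M : Type} [CommRing R] [Field M] [Algebra R M]

/-- `U` is a polynomial in the first variable, `V` in the second and `U + t V` along the lines of slope `t`, of degree at most `N`. -/
structure Uv (N : ℕ) (U V : R × R → M) : Prop where
  u : ∀ g, ∃ q : M[X], q.natDegree ≤ N ∧ ∀ z : R, U (g + (z, 0)) = q.eval (algebraMap R M z)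
  v : ∀ g, ∃ q : M[X], q.natDegree ≤ N ∧ ∀ z : R, V (g + (0, z)) = q.eval (algebraMap R M z)
  l : ∀ g, ∀ t : R, ∃ q : M[X], q.natDegree ≤ N ∧ ∀ z : R,
    U (g + (z, t * z)) + algebraMap R M t * V (g + (z, t * z)) = q.eval (algebraMap R M z)

private theorem deg_comp {q : M[X]} {N : ℕ} (hq : q.natDegree ≤ N) (a : M) :
    (q.comp (C a * X)).natDegree ≤ N := by
  have h1 : (C a * X : M[X]).natDegree ≤ 1 := by
    refine (natDegree_mul_le).trans ?_
    rw [natDegree_C, zero_add]
    exact natDegree_X_le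
  refine (natDegree_comp_le).trans ?_
  calc q.natDegree * (C a * X : M[X]).natDegree ≤ N * 1 := Nat.mul_le_mul hq h1
    _ = N := mul_one N

private theorem ev_comp (q : M[X]) (s : R) (k : ℕ) :
    q.eval (algebraMap R M (k • s)) = (q.comp (C (algebraMap R M s) * X)).eval (k : M) := by
  rw [eval_comp, eval_mul, eval_C, eval_X, nsmul_eq_mul, map_mul, map_natCast, mul_comm]

/-- Proof: `h.u` for the multiples `z = k h`: the polynomial `q.comp (C h * X)`. -/
theorem Uv.al_u {N : ℕ} {U V : R × R → M} (h : Uv N U V) (s : R) : Al N (s, 0) U := by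
  intro g
  obtain ⟨q, hq, hz⟩ := h.u g
  refine ⟨q.comp (C (algebraMap R M s) * X), deg_comp hq _, fun k => ?_⟩
  rw [← ev_comp, ← hz]
  simp

theorem Uv.al_v {N : ℕ} {U V : R × R → M} (h : Uv N U V) (s : R) : Al N (0, s) V := by
  intro g
  obtain ⟨q, hq, hz⟩ := h.v g
  refine ⟨q.comp (C (algebraMap R M s) * X), deg_comp hq _, fun k => ?_⟩
  rw [← ev_comp, ← hz]
  simp

/-- Proof: as `al_u`; `U + t V` in the direction `(s, t s)`. -/
theorem Uv.al_l {N : ℕ} {U V : R × R → M} (h : Uv N U V) (s t : R) :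
    Al N (s, t * s) (fun g => U g + algebraMap R M t * V g) := by
  intro g
  obtain ⟨q, hq, hz⟩ := h.l g t
  refine ⟨q.comp (C (algebraMap R M s) * X), deg_comp hq _, fun k => ?_⟩
  have h1 : k • ((s, t * s) : R × R) = (k • s, t * (k • s)) := by
    refine Prod.ext rfl ?_
    change k • (t * s) = t * (k • s)
    rw [mul_smul_comm]
  rw [← ev_comp, ← hz, h1]

end PL
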