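import Mathlib

/-! Elimination in a commutative algebra of operators. -/

namespace PL

/-- Proof: `c - 1 = (a - 1) b + (b - 1)`, so `(c - 1)^(n+m)` is the sum of `C(n+m, i) ((a - 1) b)^i (b - 1)^(n+m-i)`; for `i ≥ n` there is a
factor `(a - 1)^n`, which is killed together with `(c - 1)^k`; for `i < n` there is a factor `(b - 1)^m`. Everything commutes. -/
theorem nil_el {M W : Type} [Field M] [AddCommGroup W] [Module M W] {a b c : Module.End M W}
    (hab : Commute a b) (hc : c = a * b) {k n m : ℕ} {F : W} (h1 : ((b - 1) ^ m) F = 0)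
    (h2 : ((c - 1) ^ k * (a - 1) ^ n) F = 0) : ((c - 1) ^ (k + (n + m))) F = 0 := by
  have hAb : Commute (a - 1) b := hab.sub_left (Commute.one_left b)
  have hAB : Commute (a - 1) (b - 1) := hAb.sub_right (Commute.one_right _)
  have hbB : Commute b (b - 1) := (Commute.refl b).sub_right (Commute.one_right b)
  have hxy : Commute ((a - 1) * b) (b - 1) := hAB.mul_left hbB
  have hcx : c - 1 = (a - 1) * b + (b - 1) := by
    subst hc
    noncomm_ring
  have hcA : Commute (c - 1) (a - 1) := by
    rw [hcx]
    exact (((Commute.refl (a - 1)).mul_left hAb.symm)).add_left hAB.symm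
  have hcb : Commute (c - 1) b := by
    rw [hcx]
    exact (hAb.mul_left (Commute.refl b)).add_left hbB.symm
  have hcB : Commute (c - 1) (b - 1) := hcb.sub_right (Commute.one_right _)
  have hpow : (c - 1) ^ (k + (n + m)) = (c - 1) ^ k * ((a - 1) * b + (b - 1)) ^ (n + m) := by
    rw [pow_add]
    congr 1
    rw [← hcx]
  rw [hpow, hxy.add_pow, Finset.mul_sum, LinearMap.sum_apply]
  refine Finset.sum_eq_zero fun i hi => ?_
  have hi' : i ≤ n + m := Nat.lt_succ_iff.1 (Finset.mem_range.1 hi)
  rcases le_or_gt n i with h | h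
  · obtain ⟨j, rfl⟩ := Nat.exists_eq_add_of_le h
    have e1 : ((a - 1) * b) ^ (n + j) = (a - 1) ^ n * ((a - 1) ^ j * b ^ (n + j)) := by
      rw [hAb.mul_pow, pow_add, mul_assoc]
    have e2 : (c - 1) ^ k * (((a - 1) * b) ^ (n + j) * (b - 1) ^ (n + m - (n + j)) *
        ((n + m).choose (n + j) : Module.End M W)) =
        ((a - 1) ^ j * b ^ (n + j) * (b - 1) ^ (n + m - (n + j)) *
        ((n + m).choose (n + j) : Module.End M W)) * ((c - 1) ^ k * (a - 1) ^ n) := by
      rw [e1]
      have c1 : Commute ((c - 1) ^ k * (a - 1) ^ n) ((a - 1) ^ j * b ^ (n + j) *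
          (b - 1) ^ (n + m - (n + j)) * ((n + m).choose (n + j) : Module.End M W)) := by
        have u1 : Commute ((c - 1) ^ k) ((a - 1) ^ j) := hcA.pow_pow k j
        have u2 : Commute ((c - 1) ^ k) (b ^ (n + j)) := hcb.pow_pow k (n + j)
        have u3 : Commute ((c - 1) ^ k) ((b - 1) ^ (n + m - (n + j))) := hcB.pow_pow _ _
        have u4 : Commute ((c - 1) ^ k) ((n + m).choose (n + j) : Module.End M W) :=
          Nat.commute_cast _ _
        have v1 : Commute ((a - 1) ^ n) ((a - 1) ^ j) := (Commute.refl (a - 1)).pow_pow n j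
        have v2 : Commute ((a - 1) ^ n) (b ^ (n + j)) := hAb.pow_pow n (n + j)
        have v3 : Commute ((a - 1) ^ n) ((b - 1) ^ (n + m - (n + j))) := hAB.pow_pow _ _
        have v4 : Commute ((a - 1) ^ n) ((n + m).choose (n + j) : Module.End M W) :=
          Nat.commute_cast _ _
        exact (((u1.mul_right u2).mul_right u3).mul_right u4).mul_left
          (((v1.mul_right v2).mul_right v3).mul_right v4)
      rw [← c1.eq]
      simp only [mul_assoc]
    rw [e2, Module.End.mul_apply, h2, map_zero]
  · have hm : n + m - i = (n - i) + m := by omega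
    have e2 : (c - 1) ^ k * (((a - 1) * b) ^ i * (b - 1) ^ (n + m - i) *
        ((n + m).choose i : Module.End M W)) =
        ((c - 1) ^ k * (((a - 1) * b) ^ i * (b - 1) ^ (n - i) *
        ((n + m).choose i : Module.End M W))) * (b - 1) ^ m := by
      have v4 : Commute ((n + m).choose i : Module.End M W) ((b - 1) ^ m) :=
        Nat.cast_commute _ _
      rw [hm, pow_add]
      simp only [mul_assoc]
      rw [v4.eq]
    rw [e2, Module.End.mul_apply, h1, map_zero]

end PL
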