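import Pool.Agent.Lib.MP_f80667_ag.Pl.B
import Pool.Agent.Lib.MP_f80667_ag.Pl.B1

/-! Elimination for the two functions. -/

open Polynomial

namespace PL

variable {R M : Type} [CommRing R] [Field M] [Algebra R M]

omit [Algebra R M] in
private theorem b2_comm (u v : R × R) (k n : ℕ) :
    Commute ((sh u - 1 : Module.End M (R × R → M)) ^ k) ((sh v - 1) ^ n) := by
  refine Commute.pow_pow ?_ k n
  exact ((sh_comm u v).sub_right (Commute.one_right _)).sub_left (Commute.one_left _)

omit [Algebra R M] in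
private theorem b2_kill {u v : R × R} {k n : ℕ} {F H : R × R → M} {r : M}
    (h1 : ((sh u - 1 : Module.End M (R × R → M)) ^ k) H = 0)
    (h2 : ((sh v - 1 : Module.End M (R × R → M)) ^ n) (F + r • H) = 0) :
    ((sh u - 1) ^ k * (sh v - 1) ^ n : Module.End M (R × R → M)) F = 0 := by
  have e : F = (F + r • H) - r • H := by rw [add_sub_cancel_right]
  rw [e, map_sub, map_smul, Module.End.mul_apply, h2, map_zero, (b2_comm u v k n).eq,
    Module.End.mul_apply, h1, map_zero, smul_zero, sub_zero]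

/-- Proof: `(sh (0, s) - 1)^(N+1)` kills `V` (`al_v`, `Al.nil`) and `(sh (1, s) - 1)^(N+1)` kills `U + s V` (`al_l` for the direction
`(1, s)`), so the product kills `U`; `(sh (-1, 0) - 1)^(N+1)` kills `U`; `nil_el` with `a = sh (1, s)`, `b = sh (-1, 0)`,
`c = sh (0, s)` (`k = n = m = N + 1`). -/
theorem Uv.nil_u {N : ℕ} {U V : R × R → M} (h : Uv N U V) (s : R) :
    ((sh (0, s) - 1 : Module.End M (R × R → M)) ^ (3 * (N + 1))) U = 0 := by
  have h1 := (h.al_v s).nil
  have h2 := (h.al_l 1 s).nil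
  have h3 := (h.al_u (-1)).nil
  rw [mul_one] at h2
  have h2' : ((sh (1, s) - 1 : Module.End M (R × R → M)) ^ (N + 1)) (U + algebraMap R M s • V) = 0 :=
    h2
  have hc : (sh (0, s) : Module.End M (R × R → M)) = sh (1, s) * sh (-1, 0) := by
    rw [sh_mul]
    congr 1
    refine Prod.ext ?_ ?_
    · change (0 : R) = 1 + -1
      rw [add_neg_cancel]
    · change s = s + 0
      rw [add_zero]
  have h4 := nil_el (sh_comm (1, s) (-1, 0)) hc h3 (b2_kill h1 h2')
  have h5 : N + 1 + (N + 1 + (N + 1)) = 3 * (N + 1) := by ring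
  rw [h5] at h4
  exact h4

/-- Proof: the same with the lines of slope `1`: `(sh (s, 0) - 1)^(N+1)` kills `U`, `(sh (s, s) - 1)^(N+1)` kills `U + V`,
`(sh (0, -s) - 1)^(N+1)` kills `V`; `a = sh (s, s)`, `b = sh (0, -s)`, `c = sh (s, 0)`. -/
theorem Uv.nil_v {N : ℕ} {U V : R × R → M} (h : Uv N U V) (s : R) :
    ((sh (s, 0) - 1 : Module.End M (R × R → M)) ^ (3 * (N + 1))) V = 0 := by
  have h1 := (h.al_u s).nil
  have h2 := (h.al_l s 1).nil
  have h3 := (h.al_v (-s)).nil
  rw [one_mul] at h2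
  have h2' : ((sh (s, s) - 1 : Module.End M (R × R → M)) ^ (N + 1)) (V + (1 : M) • U) = 0 := by
    rw [← h2]
    congr 1
    funext g
    change V g + 1 * U g = U g + algebraMap R M 1 * V g
    rw [map_one, one_mul, one_mul, add_comm]
  have hc : (sh (s, 0) : Module.End M (R × R → M)) = sh (s, s) * sh (0, -s) := by
    rw [sh_mul]
    congr 1
    refine Prod.ext ?_ ?_
    · change s = s + 0
      rw [add_zero]
    · change (0 : R) = s + -s
      rw [add_neg_cancel]
  have h4 := nil_el (sh_comm (s, s) (0, -s)) hc h3 (b2_kill h1 h2')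
  have h5 : N + 1 + (N + 1 + (N + 1)) = 3 * (N + 1) := by ring
  rw [h5] at h4
  exact h4

end PL
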