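import Pool.Agent.Lib.MP_f80667_ag.Pl.B2

/-! The two functions are polynomials along all integral multiples. -/

open Polynomial

namespace PL

variable {R M : Type} [CommRing R] [Field M] [Algebra R M]

omit [Algebra R M] in
/-- Two nilpotent translations. -/
private theorem al2_aux [CharZero M] {N : ℕ} {F : R × R → M} {u v w : R × R} (hw : w = u + v)
    (h1 : ((sh u - 1 : Module.End M (R × R → M)) ^ (N + 1)) F = 0)
    (h2 : ((sh v - 1 : Module.End M (R × R → M)) ^ (3 * (N + 1))) F = 0) :
    Al (4 * N + 3) w F := by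
  have h3 := nil_el (a := (sh u : Module.End M (R × R → M))) (b := sh v) (c := sh w)
    (sh_comm u v) (by rw [hw, sh_mul]) (k := 0) (n := N + 1) (m := 3 * (N + 1)) (F := F) h2
    (by rw [pow_zero, one_mul]; exact h1)
  have h4 : 0 + ((N + 1) + 3 * (N + 1)) = 4 * N + 3 + 1 := by omega
  rw [h4] at h3
  exact Al.of_nil h3

/-- Proof: `sh (s, s') - 1 = (sh (s, 0) - 1) sh (0, s') + (sh (0, s') - 1)`, the first factor is nilpotent on `U` with exponent `N + 1`,
the second with exponent `3 (N + 1)`; `Al.of_nil`. -/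
theorem Uv.al2_u [CharZero M] {N : ℕ} {U V : R × R → M} (h : Uv N U V) (w : R × R) :
    Al (4 * N + 3) w U := by
  refine al2_aux (u := (w.1, 0)) (v := (0, w.2)) ?_ (h.al_u w.1).nil (h.nil_u w.2)
  ext <;> simp

theorem Uv.al2_v [CharZero M] {N : ℕ} {U V : R × R → M} (h : Uv N U V) (w : R × R) :
    Al (4 * N + 3) w V := by
  refine al2_aux (u := (0, w.2)) (v := (w.1, 0)) ?_ (h.al_v w.2).nil (h.nil_v w.1)
  ext <;> simp

end PL
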