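import Pool.Agent.Lib.MP_f80667_ag.Pl.A

/-!
The derivative of a function which is a polynomial along all multiples.

* `cc N k`: constants with `q.coeff 1 = ∑ k ≤ N, cc N k * q.eval k` for all polynomials `q` of degree at most `N`.
* `dv N u F g`: the derivative of `F` at `g` in the direction `u`.
-/

open Polynomial

namespace PL

variable {G M : Type} [AddCommGroup G] [Field M] [CharZero M]

/-- The constants. -/
noncomputable def cc (M : Type) [Field M] (N k : ℕ) : M :=
  (Lagrange.basis (Finset.range (N + 1)) (fun i : ℕ => (i : M)) k).coeff 1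

/-- Proof: `Lagrange.eq_interpolate`, `Lagrange.interpolate_apply`. -/
theorem cc_spec {N : ℕ} {q : M[X]} (hq : q.natDegree ≤ N) :
    ∑ k ∈ Finset.range (N + 1), cc M N k * q.eval (k : M) = q.coeff 1 := by
  have hinj : Set.InjOn (fun i : ℕ => (i : M)) (Finset.range (N + 1)) :=
    fun a _ b _ h => Nat.cast_injective h
  have hdeg : q.degree < ((Finset.range (N + 1)).card : WithBot ℕ) := by
    rw [Finset.card_range]
    exact lt_of_le_of_lt degree_le_natDegree (by exact_mod_cast Nat.lt_succ_of_le hq)
  have h := Lagrange.eq_interpolate (v := fun i : ℕ => (i : M)) hinj hdeg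
  rw [Lagrange.interpolate_apply] at h
  have h1 := congrArg (fun p : M[X] => p.coeff 1) h
  simp only [finsetSum_coeff, coeff_C_mul] at h1
  rw [h1]
  exact Finset.sum_congr rfl fun k _ => mul_comm _ _

/-- The derivative in the direction `u`. -/
noncomputable def dv (N : ℕ) (u : G) : Module.End M (G → M) :=
  ∑ k ∈ Finset.range (N + 1), cc M N k • sh (k • u)

omit [CharZero M] in
theorem dv_apply (N : ℕ) (u : G) (F : G → M) (g : G) :
    dv N u F g = ∑ k ∈ Finset.range (N + 1), cc M N k * F (g + k • u) := by
  rw [dv, LinearMap.sum_apply, Finset.sum_apply]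
  rfl

theorem dv_eq {N : ℕ} {u g : G} {F : G → M} {q : M[X]} (hq : q.natDegree ≤ N)
    (h : ∀ k : ℕ, F (g + k • u) = q.eval (k : M)) : dv N u F g = q.coeff 1 := by
  rw [dv_apply, ← cc_spec hq]
  exact Finset.sum_congr rfl fun k _ => by rw [h]

omit [CharZero M] in
/-- Proof: sums of translations commute. -/
theorem dv_comm (N N' : ℕ) (u v : G) :
    Commute (dv N u : Module.End M (G → M)) (dv N' v) := by
  rw [dv, dv]
  refine Commute.sum_left _ _ _ fun k _ => Commute.sum_right _ _ _ fun l _ => ?_
  exact ((sh_comm (M := M) (k • u) (l • v)).smul_left _).smul_right _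

/-- Proof: `dv N u F` is a combination of translates of `F`; the sum of polynomials of degree at most `N'` in `k`. -/
theorem Al.dv {N N' : ℕ} {u w : G} {F : G → M} (h : Al N' w F) : Al N' w (PL.dv N u F) := by
  intro g
  choose q hq using fun l : ℕ => h (g + l • u)
  refine ⟨∑ l ∈ Finset.range (N + 1), C (cc M N l) * q l, ?_, fun k => ?_⟩
  · refine natDegree_sum_le_of_forall_le _ _ fun l _ => ?_
    exact (natDegree_C_mul_le _ _).trans (hq l).1
  · rw [dv_apply, eval_finsetSum]
    refine Finset.sum_congr rfl fun l _ => ?_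
    rw [eval_mul, eval_C, ← (hq l).2 k]
    have e : g + k • w + l • u = g + l • u + k • w := by abel
    rw [e]

end PL
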