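import Pool.Agent.Lib.MP_f80667_ag.Pl.C

/-! The derivative is additive in the direction. -/

open Polynomial

namespace PL

variable {G M : Type} [AddCommGroup G] [Field M] [CharZero M]

/-- Proof: for every `l` there is a polynomial `q_l` of degree at most `N` with `F (g + l v + k u) = q_l(k)`, its coefficient `r_j(l)` of `X^j` is a
combination of the `F (g + l v + i u)`, `i ≤ N` (interpolation at `0, .., N`), so a polynomial in `l` of degree at most `N`: there are
`r_j` with `F (g + l v + k u) = ∑ j, r_j(l) k^j` for all `k, l`. So `F (g + k (u + v)) = (∑ j, r_j X^j)(k)`, its degree is at most `N`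
(by hypothesis; two polynomials which agree at all `k` are equal) and its coefficient of `X` is `r_0.coeff 1 + r_1.coeff 0`, where
`F (g + l v) = r_0(l)` and `r_1(0)` is the coefficient of `X` of `q_0`. `dv_eq`. -/
theorem dv_add {N : ℕ} {u v : G} {F : G → M} (hu : Al N u F) (hv : Al N v F)
    (huv : Al N (u + v) F) : dv N (u + v) F = dv N u F + dv N v F := by
  funext g
  have h1 : ∀ i : ℕ, ∃ p : M[X], p.natDegree ≤ N ∧
      ∀ l : ℕ, F (g + i • u + l • v) = p.eval (l : M) := fun i => hv (g + i • u)
  choose p hpd hp using h1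
  have key : ∀ k l : ℕ, F (g + k • u + l • v) = ∑ i ∈ Finset.range (N + 1),
      (p i).eval (l : M) * (Lagrange.basis (Finset.range (N + 1)) (fun i : ℕ => (i : M)) i).eval
        (k : M) := by
    intro k l
    obtain ⟨q, hqd, hq⟩ := hu (g + l • v)
    have h2 : ∀ k : ℕ, F (g + k • u + l • v) = q.eval (k : M) := by
      intro k
      rw [← hq k]
      exact congrArg F (by abel)
    have h3 := Lagrange.eq_interpolate (s := Finset.range (N + 1)) (v := fun i : ℕ => (i : M))
      (f := q) (fun a _ b _ h => Nat.cast_injective h) (by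
        rw [Finset.card_range]
        exact (Polynomial.degree_le_natDegree).trans_lt (by exact_mod_cast Nat.lt_succ_of_le hqd))
    rw [h2 k, h3, Lagrange.interpolate_apply, Polynomial.eval_finsetSum]
    refine Finset.sum_congr rfl fun i _ => ?_
    rw [Polynomial.eval_mul, Polynomial.eval_C, ← h2 i, hp i l]
  obtain ⟨q, hqd, hq⟩ := huv g
  have hQ : q = ∑ i ∈ Finset.range (N + 1),
      p i * Lagrange.basis (Finset.range (N + 1)) (fun i : ℕ => (i : M)) i := by
    refine Polynomial.eq_of_infinite_eval_eq _ _ ?_
    refine Set.Infinite.mono (s := Set.range fun k : ℕ => (k : M)) ?_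
      (Set.infinite_range_of_injective Nat.cast_injective)
    rintro _ ⟨k, rfl⟩
    change q.eval (k : M) = (∑ i ∈ Finset.range (N + 1),
      p i * Lagrange.basis (Finset.range (N + 1)) (fun i : ℕ => (i : M)) i).eval (k : M)
    rw [← hq k, smul_add, ← add_assoc, key k k, Polynomial.eval_finsetSum]
    exact Finset.sum_congr rfl fun i _ => by rw [Polynomial.eval_mul]
  have e1 : dv N (u + v) F g = ∑ i ∈ Finset.range (N + 1),
      ((p i).coeff 0 * (Lagrange.basis (Finset.range (N + 1)) (fun i : ℕ => (i : M)) i).coeff 1 +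
        (p i).coeff 1 *
          (Lagrange.basis (Finset.range (N + 1)) (fun i : ℕ => (i : M)) i).coeff 0) := by
    rw [dv_eq hqd hq, hQ, Polynomial.finsetSum_coeff]
    exact Finset.sum_congr rfl fun i _ => Polynomial.mul_coeff_one _ _
  have e2 : dv N u F g = ∑ i ∈ Finset.range (N + 1),
      (p i).coeff 0 *
        (Lagrange.basis (Finset.range (N + 1)) (fun i : ℕ => (i : M)) i).coeff 1 := by
    rw [dv_apply]
    refine Finset.sum_congr rfl fun i _ => ?_
    have h4 := hp i 0
    rw [zero_smul, add_zero, Nat.cast_zero, ← Polynomial.coeff_zero_eq_eval_zero] at h4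
    rw [h4, mul_comm]
    rfl
  have e3 : dv N v F g = ∑ i ∈ Finset.range (N + 1),
      (p i).coeff 1 *
        (Lagrange.basis (Finset.range (N + 1)) (fun i : ℕ => (i : M)) i).coeff 0 := by
    have h5 : dv N v F g = (∑ i ∈ Finset.range (N + 1), p i * Polynomial.C
        ((Lagrange.basis (Finset.range (N + 1)) (fun i : ℕ => (i : M)) i).coeff 0)).coeff 1 := by
      refine dv_eq ?_ ?_
      · refine Polynomial.natDegree_sum_le_of_forall_le _ _ fun i _ => ?_
        exact (Polynomial.natDegree_mul_C_le _ _).trans (hpd i)
      · intro l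
        have h6 := key 0 l
        rw [zero_smul, add_zero] at h6
        rw [h6, Polynomial.eval_finsetSum]
        refine Finset.sum_congr rfl fun i _ => ?_
        rw [Polynomial.eval_mul, Polynomial.eval_C, Nat.cast_zero,
          Polynomial.coeff_zero_eq_eval_zero]
    rw [h5, Polynomial.finsetSum_coeff]
    exact Finset.sum_congr rfl fun i _ => Polynomial.coeff_mul_C _ _ _
  rw [Pi.add_apply, e1, e2, e3, Finset.sum_add_distrib]

end PL
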