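import Pool.Agent.Lib.MP_f80667_ag.Pl.C

/-! The Taylor formula. -/

open Polynomial

namespace PL

variable {G M : Type} [AddCommGroup G] [Field M] [CharZero M]

/-- Proof: with `F (g + k u) = q(k)`: `(dv N u F)(g + k u) = q'(k)` (`dv_eq` for `q.comp (X + C k)`, `Polynomial.taylor`), so
`((dv N u) ^ j F) g = j! q.coeff j`, and `F (g + u) = q(1)`. -/
theorem dv_taylor {N : ℕ} {u : G} {F : G → M} (h : Al N u F) (g : G) :
    F (g + u) = ∑ j ∈ Finset.range (N + 1), ((j.factorial : M))⁻¹ * ((dv N u) ^ j) F g := by
  obtain ⟨q, hq, h1⟩ := h g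
  have hd : ∀ j, (derivative^[j] q).natDegree ≤ N := fun j =>
    (natDegree_iterate_derivative q j).trans ((Nat.sub_le _ _).trans hq)
  have h2 : ∀ j k : ℕ, ((dv N u) ^ j) F (g + k • u) = (derivative^[j] q).eval (k : M) := by
    intro j
    induction j with
    | zero =>
      intro k
      rw [pow_zero, Function.iterate_zero, id_eq]
      exact h1 k
    | succ j ih =>
      intro k
      have h3 : ∀ l : ℕ, ((dv N u) ^ j) F (g + k • u + l • u) =
          (taylor (k : M) (derivative^[j] q)).eval (l : M) := by
        intro l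
        rw [add_assoc, ← add_smul, ih, taylor_eval, Nat.cast_add, add_comm]
      have h4 : (taylor (k : M) (derivative^[j] q)).natDegree ≤ N := by
        rw [natDegree_taylor]
        exact hd j
      rw [pow_succ', Module.End.mul_apply, dv_eq h4 h3, taylor_coeff_one,
        Function.iterate_succ_apply']
  have h5 : ∀ j : ℕ, ((dv N u) ^ j) F g = (j.factorial : M) * q.coeff j := by
    intro j
    have h6 := h2 j 0
    rw [zero_smul, add_zero, Nat.cast_zero, ← coeff_zero_eq_eval_zero, coeff_iterate_derivative,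
      zero_add, Nat.descFactorial_self, nsmul_eq_mul] at h6
    exact h6
  have h7 := h1 1
  rw [one_smul, Nat.cast_one, eval_eq_sum_range' (Nat.lt_succ_of_le hq)] at h7
  rw [h7]
  refine Finset.sum_congr rfl fun j _ => ?_
  have h8 : (j.factorial : M) ≠ 0 := Nat.cast_ne_zero.2 (Nat.factorial_ne_zero j)
  rw [h5, one_pow, mul_one, inv_mul_cancel_left₀ h8]

end PL
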