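import Mathlib

/-!
Derivations vanish at algebraic elements.
-/

open Polynomial

namespace PL

/-- Proof: `a 0 = 0`, `a 1 = 0`, `a (t ^ n) = n t^(n-1) a t`, so `a (aeval t f) = f'(t) a t` for `f ∈ ℤ[X]`. Let `f ≠ 0` be of minimal degree
with `aeval t f = 0` in `R` (`t` is algebraic over `ℤ`, since the image is and `algebraMap R M` is injective): `f` is not constant,
so `f' ≠ 0` has smaller degree and `f'(t) ≠ 0`; `f'(t) a t = a 0 = 0`. -/
theorem der_zero {R M : Type} [CommRing R] [Field M] [CharZero M] [Algebra R M]
    (hi : Function.Injective (algebraMap R M)) (a : R → M) (ha : ∀ x y, a (x + y) = a x + a y)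
    (hm : ∀ x y, a (x * y) = algebraMap R M x * a y + algebraMap R M y * a x) {t : R}
    (ht : IsAlgebraic ℚ (algebraMap R M t)) : a t = 0 := by
  have h0 : a 0 = 0 := by simpa using ha 0 0
  have h1 : a 1 = 0 := by simpa using hm 1 1
  let A : R →+ M := { toFun := a, map_zero' := h0, map_add' := ha }
  have hint : ∀ z : ℤ, a (z : R) = 0 := by
    intro z
    have h : A (z : R) = z • A 1 := by
      rw [← map_zsmul, zsmul_one]
    have h' : A 1 = 0 := h1
    rw [h', smul_zero] at h
    exact h
  have hpow : ∀ n : ℕ, a (t ^ n) = (n : M) * algebraMap R M t ^ (n - 1) * a t := by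
    intro n
    induction n with
    | zero => simp [h1]
    | succ n ih =>
      rw [pow_succ, hm, ih, map_pow]
      rcases n with _ | m
      · simp
      · simp only [Nat.add_sub_cancel]
        push_cast
        ring
  have key : ∀ f : ℤ[X], a (aeval t f) = algebraMap R M (aeval t (derivative f)) * a t := by
    intro f
    induction f using Polynomial.induction_on' with
    | add p q hp hq => rw [map_add, ha, hp, hq, map_add, map_add, map_add, add_mul]
    | monomial n z =>
      rw [derivative_monomial, aeval_monomial, aeval_monomial, hm, hpow]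
      have h : a (algebraMap ℤ R z) = 0 := by simpa using hint z
      rw [h]
      simp only [map_mul, map_pow, map_natCast]
      ring
  have hp0 : minpoly ℚ (algebraMap R M t) ≠ 0 := minpoly.ne_zero ht.isIntegral
  have hir : Irreducible (minpoly ℚ (algebraMap R M t)) := minpoly.irreducible ht.isIntegral
  have hsep : aeval (algebraMap R M t) (derivative (minpoly ℚ (algebraMap R M t))) ≠ 0 :=
    hir.separable.aeval_derivative_ne_zero (minpoly.aeval ℚ _)
  obtain ⟨b, hb⟩ := IsLocalization.integerNormalization_map_to_map (nonZeroDivisors ℤ)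
    (minpoly ℚ (algebraMap R M t))
  set f := IsLocalization.integerNormalization (nonZeroDivisors ℤ) (minpoly ℚ (algebraMap R M t)) with hf
  have hb0 : ((b : ℤ) : ℚ) ≠ 0 := by
    exact_mod_cast nonZeroDivisors.ne_zero b.2
  have hfa : ∀ g : ℤ[X], algebraMap R M (aeval t g) = aeval (algebraMap R M t) (g.map (algebraMap ℤ ℚ)) := by
    intro g
    rw [aeval_map_algebraMap, ← aeval_algebraMap_apply]
  have hz : aeval t f = 0 := by
    apply hi
    rw [hfa, hb, map_zero, map_zsmul, minpoly.aeval, smul_zero]
  have hd : algebraMap R M (aeval t (derivative f)) ≠ 0 := by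
    rw [hfa, ← derivative_map, hb, derivative_smul, map_zsmul]
    exact smul_ne_zero (nonZeroDivisors.ne_zero b.2) hsep
  have hk := key f
  rw [hz, h0] at hk
  exact (mul_eq_zero.mp hk.symm).resolve_left hd

end PL
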