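import Pool.Agent.Lib.MP_f80667_ag.Pl.C

/-! The derivative of a function which is a polynomial along a line over a ring. -/

open Polynomial

namespace PL

variable {R M : Type} [CommRing R] [Field M] [CharZero M] [Algebra R M]

/-- A polynomial in `z ∈ R` in the direction `w`: the derivative in the direction `ζ w` is `ζ` times the derivative in the direction `w`.
Proof: `dv_eq` for `q.comp (C ζ * X)` and for `q`. Here `w` and `z • w` are the vectors of the line. -/
theorem dv_line {N' : ℕ} {F : R × R → M} {g w : R × R} {q : M[X]}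
    (hq : q.natDegree ≤ N') (h : ∀ z : R, F (g + (z * w.1, z * w.2)) = q.eval (algebraMap R M z))
    (ζ : R) : dv N' (ζ * w.1, ζ * w.2) F g = algebraMap R M ζ * dv N' w F g := by
  have h1 : dv N' w F g = q.coeff 1 := by
    refine dv_eq hq fun k => ?_
    have e : (k • w : R × R) = ((k : R) * w.1, (k : R) * w.2) := by
      ext
      · simp
      · simp
    rw [e, h, map_natCast]
  have hd : (q.comp (C (algebraMap R M ζ) * X)).natDegree ≤ N' := by
    refine le_trans natDegree_comp_le ?_
    have h3 : (C (algebraMap R M ζ) * X : M[X]).natDegree ≤ 1 :=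
      le_trans (natDegree_C_mul_le _ _) natDegree_X_le
    refine le_trans (Nat.mul_le_mul_left _ h3) ?_
    rw [mul_one]
    exact hq
  have h2 : dv N' (ζ * w.1, ζ * w.2) F g = (q.comp (C (algebraMap R M ζ) * X)).coeff 1 := by
    refine dv_eq hd fun k => ?_
    have e : (k • ((ζ * w.1, ζ * w.2) : R × R)) = (((k : R) * ζ) * w.1, ((k : R) * ζ) * w.2) := by
      ext
      · simp [mul_assoc]
      · simp [mul_assoc]
    rw [e, h, eval_comp, eval_mul, eval_C, eval_X, map_mul, map_natCast, mul_comm]
  rw [h2, h1, comp_C_mul_X_coeff, pow_one, mul_comm]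

end PL
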