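import Pool.Agent.Lib.MP_f80667_ag.Pl.B3
import Pool.Agent.Lib.MP_f80667_ag.Pl.C2
import Pool.Agent.Lib.MP_f80667_ag.Pl.D
import Pool.Agent.Lib.MP_f80667_ag.Pl.E

/-! The derivative in the second variable is linear over the ring of algebraic numbers. -/

open Polynomial

namespace PL

variable {R M : Type} [CommRing R] [Field M] [CharZero M] [Algebra R M]
  {N : ℕ} {U V : R × R → M}

/-- Proof: let `D w = dv (4 N + 3) w`, additive in `w` on `U` and `V` (`dv_add`, `Uv.al2_u`, `Uv.al2_v`). By `dv_line`: `D (ζ, 0) U = ζ D (1, 0) U`,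
`D (0, ζ) V = ζ D (0, 1) V` and `D (ζ, t ζ) (U + t V) = ζ D (1, t) (U + t V)`. Let `a ζ = D (0, ζ) U g - ζ D (0, 1) U g`,
`b ζ = D (ζ, 0) V g - ζ D (1, 0) V g`. The last equation minus multiples of the first two is `a (t ζ) + t b ζ = ζ a t`; `t = 1`:
`b = - a` (`a 1 = 0`). So `a (t ζ) = t a ζ + ζ a t`, and `der_zero`. -/
theorem Uv.dv_y (h : Uv N U V) (hi : Function.Injective (algebraMap R M))
    (ha : ∀ t : R, IsAlgebraic ℚ (algebraMap R M t)) (ζ : R) (g : R × R) :
    dv (4 * N + 3) (0, ζ) U g = algebraMap R M ζ * dv (4 * N + 3) (0, 1) U g := by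
  have hN : N ≤ 4 * N + 3 := by omega
  have hAadd : ∀ w w' : R × R, dv (4 * N + 3) (w + w') U g =
      dv (4 * N + 3) w U g + dv (4 * N + 3) w' U g := by
    intro w w'
    rw [dv_add (h.al2_u w) (h.al2_u w') (h.al2_u (w + w'))]
    rfl
  have hBadd : ∀ w w' : R × R, dv (4 * N + 3) (w + w') V g =
      dv (4 * N + 3) w V g + dv (4 * N + 3) w' V g := by
    intro w w'
    rw [dv_add (h.al2_v w) (h.al2_v w') (h.al2_v (w + w'))]
    rfl
  have hE1 : ∀ z : R, dv (4 * N + 3) (z, 0) U g =
      algebraMap R M z * dv (4 * N + 3) (1, 0) U g := by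
    intro z
    obtain ⟨q, hq, hq'⟩ := h.u g
    have h1 := dv_line (F := U) (g := g) (w := ((1 : R), (0 : R))) (hq.trans hN)
      (by
        intro z
        rw [← hq' z]
        simp) z
    simpa using h1
  have hE2 : ∀ z : R, dv (4 * N + 3) (0, z) V g =
      algebraMap R M z * dv (4 * N + 3) (0, 1) V g := by
    intro z
    obtain ⟨q, hq, hq'⟩ := h.v g
    have h1 := dv_line (F := V) (g := g) (w := ((0 : R), (1 : R))) (hq.trans hN)
      (by
        intro z
        rw [← hq' z]
        simp) z
    simpa using h1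
  have hlin : ∀ (w : R × R) (t : R),
      dv (4 * N + 3) w (fun g => U g + algebraMap R M t * V g) g =
        dv (4 * N + 3) w U g + algebraMap R M t * dv (4 * N + 3) w V g := by
    intro w t
    have h1 : (fun g => U g + algebraMap R M t * V g) = U + algebraMap R M t • V := by
      funext x
      rfl
    rw [h1, map_add, map_smul]
    rfl
  have hE3 : ∀ z t : R, dv (4 * N + 3) (z, z * t) U g +
      algebraMap R M t * dv (4 * N + 3) (z, z * t) V g =
        algebraMap R M z * (dv (4 * N + 3) (1, t) U g +
          algebraMap R M t * dv (4 * N + 3) (1, t) V g) := by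
    intro z t
    obtain ⟨q, hq, hq'⟩ := h.l g t
    have h1 := dv_line (F := fun g => U g + algebraMap R M t * V g) (g := g)
      (w := ((1 : R), t)) (hq.trans hN)
      (by
        intro z
        rw [← hq' z]
        simp [mul_comm z t]) z
    rw [hlin, hlin] at h1
    simpa using h1
  have hAs : ∀ x y : R, dv (4 * N + 3) (x, y) U g =
      dv (4 * N + 3) (x, 0) U g + dv (4 * N + 3) (0, y) U g := by
    intro x y
    rw [← hAadd]
    simp
  have hBs : ∀ x y : R, dv (4 * N + 3) (x, y) V g =
      dv (4 * N + 3) (x, 0) V g + dv (4 * N + 3) (0, y) V g := by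
    intro x y
    rw [← hBadd]
    simp
  have hkey : ∀ z t : R, dv (4 * N + 3) (0, z * t) U g +
      algebraMap R M t * dv (4 * N + 3) (z, 0) V g =
        algebraMap R M z * dv (4 * N + 3) (0, t) U g +
          algebraMap R M z * algebraMap R M t * dv (4 * N + 3) (1, 0) V g := by
    intro z t
    have h1 := hE3 z t
    rw [hAs z (z * t), hBs z (z * t), hAs 1 t, hBs 1 t, hE1 z, hE2 (z * t), hE2 t,
      map_mul] at h1
    linear_combination h1
  have hb : ∀ z : R, dv (4 * N + 3) (0, z) U g + dv (4 * N + 3) (z, 0) V g =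
      algebraMap R M z * dv (4 * N + 3) (0, 1) U g +
        algebraMap R M z * dv (4 * N + 3) (1, 0) V g := by
    intro z
    have h1 := hkey z 1
    rw [mul_one, map_one] at h1
    linear_combination h1
  have hfin := der_zero hi
    (fun z : R => dv (4 * N + 3) (0, z) U g - algebraMap R M z * dv (4 * N + 3) (0, 1) U g)
    (by
      intro x y
      have h1 : dv (4 * N + 3) ((0 : R), x + y) U g =
          dv (4 * N + 3) (0, x) U g + dv (4 * N + 3) (0, y) U g := by
        rw [← hAadd]
        simp
      change dv (4 * N + 3) ((0 : R), x + y) U g -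
        algebraMap R M (x + y) * dv (4 * N + 3) (0, 1) U g = _
      rw [h1, map_add]
      ring)
    (by
      intro x y
      have h1 := hkey x y
      have h2 := hb x
      rw [map_mul]
      linear_combination h1 - algebraMap R M y * h2)
    (ha ζ)
  linear_combination hfin

end PL
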