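import Pool.Agent.Lib.MP_f80667_ag.Pl.C3
import Pool.Agent.Lib.MP_f80667_ag.Pl.E2

/-! The planar lemma over a ring of algebraic numbers: in the situation of `Uv` the function `U` is a polynomial in the second variable. -/

open Polynomial

namespace PL

variable {R M : Type} [CommRing R] [Field M] [CharZero M] [Algebra R M]
  {N : ℕ} {U V : R × R → M}

/-- Proof: `dv_taylor` for the direction `(0, ζ)`; by `dv_y` (at all points) and `dv_comm` `(dv (0, ζ))^j U = ζ^j (dv (0, 1))^j U`
(induction on `j`: `dv (0, ζ) (D^j U) = D^j (dv (0, ζ) U) = ζ D^(j+1) U`). -/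
theorem Uv.poly (h : Uv N U V) (hi : Function.Injective (algebraMap R M))
    (ha : ∀ t : R, IsAlgebraic ℚ (algebraMap R M t)) (g : R × R) :
    ∃ q : M[X], q.natDegree ≤ 4 * N + 3 ∧ ∀ ζ : R,
      U (g + (0, ζ)) = q.eval (algebraMap R M ζ) := by
  have hy : ∀ ζ : R, dv (4 * N + 3) ((0, ζ) : R × R) U =
      algebraMap R M ζ • dv (4 * N + 3) ((0, 1) : R × R) U := fun ζ =>
    funext fun g => h.dv_y hi ha ζ g
  have hj : ∀ (ζ : R) (j : ℕ), ((dv (4 * N + 3) ((0, ζ) : R × R) : Module.End M (R × R → M)) ^ j) U =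
      (algebraMap R M ζ) ^ j •
        ((dv (4 * N + 3) ((0, 1) : R × R) : Module.End M (R × R → M)) ^ j) U := by
    intro ζ j
    induction j with
    | zero => rw [pow_zero, pow_zero, pow_zero, one_smul]
    | succ j ih =>
      have hc : Commute (dv (4 * N + 3) ((0, ζ) : R × R) : Module.End M (R × R → M))
          ((dv (4 * N + 3) ((0, 1) : R × R) : Module.End M (R × R → M)) ^ j) :=
        (dv_comm _ _ _ _).pow_right j
      have hc' : (dv (4 * N + 3) ((0, ζ) : R × R) : Module.End M (R × R → M))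
          (((dv (4 * N + 3) ((0, 1) : R × R) : Module.End M (R × R → M)) ^ j) U) =
          ((dv (4 * N + 3) ((0, 1) : R × R) : Module.End M (R × R → M)) ^ j)
            (dv (4 * N + 3) ((0, ζ) : R × R) U) := by
        rw [← Module.End.mul_apply, hc.eq, Module.End.mul_apply]
      rw [pow_succ', Module.End.mul_apply, ih, map_smul, hc', hy, map_smul, smul_smul,
        ← pow_succ, pow_succ (dv (4 * N + 3) ((0, 1) : R × R) : Module.End M (R × R → M)) j,
        Module.End.mul_apply]
  refine ⟨∑ j ∈ Finset.range (4 * N + 3 + 1), C (((j.factorial : M))⁻¹ *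
    ((dv (4 * N + 3) ((0, 1) : R × R) : Module.End M (R × R → M)) ^ j) U g) * X ^ j, ?_, ?_⟩
  · refine natDegree_sum_le_of_forall_le _ _ fun j hj => ?_
    refine (natDegree_C_mul_X_pow_le _ _).trans ?_
    rw [Finset.mem_range] at hj
    omega
  · intro ζ
    rw [dv_taylor (h.al2_u (0, ζ)) g, eval_finsetSum]
    refine Finset.sum_congr rfl fun j _ => ?_
    rw [hj ζ j, eval_mul, eval_C, eval_pow, eval_X, Pi.smul_apply, smul_eq_mul]
    ring

end PL
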