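import Pool.Agent.Lib.MP_f80667_ag.Pl.F

/-!
Functions on `S ^ σ`, `S` an infinite subset of a field, with values in a vector space `H`, which are polynomials of bounded degree in every
variable.

* `Ph T f`: on `T` the function `f` is a polynomial with coefficients in `H`.
-/

open MvPolynomial

namespace PL

variable {κ H : Type} [Field κ] [AddCommGroup H] [Module κ H]

/-- On `T` the function `f` is a polynomial with coefficients in `H`. -/
def Ph {σ : Type} (T : Set (σ → κ)) (f : (σ → κ) → H) : Prop :=
  ∃ (m : ℕ) (g : Fin m → MvPolynomial σ κ) (h : Fin m → H), ∀ b ∈ T,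
    f b = ∑ r, eval b (g r) • h r

/-- Proof: concatenate the two families (`Fin (m + m')`, `Fin.append`). -/
theorem Ph.add {σ : Type} {T : Set (σ → κ)} {f f' : (σ → κ) → H} (h : Ph T f) (h' : Ph T f') :
    Ph T (fun b => f b + f' b) := by
  obtain ⟨m, g, c, e⟩ := h
  obtain ⟨m', g', c', e'⟩ := h'
  refine ⟨m + m', Fin.append g g', Fin.append c c', fun b hb => ?_⟩
  rw [Fin.sum_univ_add]
  simp only [Fin.append_left, Fin.append_right]
  rw [e b hb, e' b hb]

theorem Ph.mul {σ : Type} {T : Set (σ → κ)} {f : (σ → κ) → H} (p : MvPolynomial σ κ)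
    (h : Ph T f) : Ph T (fun b => eval b p • f b) := by
  obtain ⟨m, g, c, e⟩ := h
  refine ⟨m, fun r => p * g r, c, fun b hb => ?_⟩
  simp only [map_mul, mul_smul]
  rw [e b hb, Finset.smul_sum]

theorem Ph.sum {σ ι : Type} {T : Set (σ → κ)} (s : Finset ι) {f : ι → (σ → κ) → H}
    (h : ∀ i ∈ s, Ph T (f i)) : Ph T (fun b => ∑ i ∈ s, f i b) := by
  classical
  induction s using Finset.induction_on with
  | empty => exact ⟨0, Fin.elim0, Fin.elim0, fun b _ => by simp⟩
  | insert a s ha ih =>
    simp only [Finset.sum_insert ha]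
    exact (h a (Finset.mem_insert_self a s)).add
      (ih fun i hi => h i (Finset.mem_insert_of_mem hi))

/-- Composition with the polynomial map `u`. Proof: `MvPolynomial.aeval u (g r)`. -/
theorem Ph.comp {σ τ : Type} {T : Set (σ → κ)} {f : (σ → κ) → H} (h : Ph T f)
    (u : σ → MvPolynomial τ κ) {T' : Set (τ → κ)}
    (hu : ∀ b ∈ T', (fun i => eval b (u i)) ∈ T) : Ph T' (fun b => f fun i => eval b (u i)) := by
  obtain ⟨m, g, c, e⟩ := h
  refine ⟨m, fun r => aeval u (g r), c, fun b hb => ?_⟩
  refine (e _ (hu b hb)).trans ?_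
  refine Finset.sum_congr rfl fun r _ => ?_
  have h1 : eval b (aeval u (g r)) = eval (fun i => eval b (u i)) (g r) := by
    induction g r using MvPolynomial.induction_on with
    | C a => simp
    | add p q hp hq => simp only [map_add, hp, hq]
    | mul_X p i hp => simp only [map_mul, hp, aeval_X, eval_X]
  rw [h1]

end PL
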