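import Pool.Agent.Lib.MP_f80667_ag.Pl.F2

/-! Functions which are polynomials in every variable are polynomials. -/

open MvPolynomial

namespace PL

variable {κ H : Type} [Field κ] [AddCommGroup H] [Module κ H]

private theorem interp [DecidableEq κ] {D : ℕ} {s : Finset κ} (hs : s.card = D + 1) (c : ℕ → H) (z : κ) :
    pe D c z = ∑ r ∈ s, (Lagrange.basis s id r).eval z • pe D c r := by
  have hinj : Set.InjOn (id : κ → κ) (s : Set κ) := Set.injOn_id _
  have h1 : ∀ i ∈ Finset.range (D + 1),
      z ^ i = ∑ r ∈ s, (Lagrange.basis s id r).eval z * r ^ i := by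
    intro i hi
    have h2 : (Polynomial.X ^ i : Polynomial κ).degree < (s.card : ℕ) := by
      rw [Polynomial.degree_X_pow, hs]
      exact_mod_cast Finset.mem_range.1 hi
    have h3 := Lagrange.eq_interpolate hinj h2
    have h4 : z ^ i = (Polynomial.X ^ i : Polynomial κ).eval z := by
      rw [Polynomial.eval_pow, Polynomial.eval_X]
    rw [h4, h3, Lagrange.interpolate_apply, Polynomial.eval_finsetSum]
    refine Finset.sum_congr rfl fun r _ => ?_
    rw [Polynomial.eval_mul, Polynomial.eval_C, Polynomial.eval_pow, Polynomial.eval_X, id,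
      mul_comm]
  simp only [pe, Finset.smul_sum]
  rw [Finset.sum_comm]
  refine Finset.sum_congr rfl fun i hi => ?_
  rw [h1 i hi, Finset.sum_smul]
  refine Finset.sum_congr rfl fun r _ => ?_
  rw [smul_smul]

private theorem Ph_congr {σ : Type} {T : Set (σ → κ)} {f f' : (σ → κ) → H} (h : Ph T f')
    (e : ∀ b ∈ T, f b = f' b) : Ph T f := by
  obtain ⟨m, g, c, e'⟩ := h
  exact ⟨m, g, c, fun b hb => (e b hb).trans (e' b hb)⟩

/-- Proof: as `GM.sep_fin` (Lib/MP_f80667_ag/Gm/PlA.lean): induction on `n`; distinct `z_0, .., z_D` in `S`,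
`f b = ∑ r, L_r (b 0) • f (update b 0 z_r)` (`pe`: after every linear form Lagrange interpolation), the functions
`b ↦ f (cons z_r b)` are polynomials by induction; `Ph.sum`, `Ph.mul`, `Ph.comp`. -/
theorem sepS_fin {S : Set κ} (hS : S.Infinite) {n : ℕ} (f : (Fin n → κ) → H) (D : ℕ)
    (h : ∀ (s : Fin n) (b : Fin n → κ), (∀ i, b i ∈ S) → ∃ c : ℕ → H, ∀ z ∈ S,
      f (Function.update b s z) = pe D c z) :
    Ph {b | ∀ i, b i ∈ S} f := by
  classical
  induction n with
  | zero =>
    refine ⟨1, fun _ => 1, fun _ => f fun i => i.elim0, fun b _ => ?_⟩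
    rw [Fin.sum_univ_one, map_one, one_smul]
    congr 1
    exact Subsingleton.elim _ _
  | succ n ih =>
    obtain ⟨s, hsS, hsc⟩ := hS.exists_subset_card_eq (D + 1)
    have hr : ∀ r ∈ s, Ph {b : Fin (n + 1) → κ | ∀ i, b i ∈ S}
        (fun b => eval b (Polynomial.eval₂ C (X 0) (Lagrange.basis s id r)) •
          f (Fin.cons r (fun i => eval b (X (Fin.succ i) : MvPolynomial (Fin (n + 1)) κ)) :
            Fin (n + 1) → κ)) := by
      intro r hr
      refine Ph.mul _ ?_
      refine Ph.comp (f := fun b : Fin n → κ => f (Fin.cons r b : Fin (n + 1) → κ))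
        (T := {b | ∀ i, b i ∈ S}) ?_ (fun i => (X (Fin.succ i) : MvPolynomial (Fin (n + 1)) κ))
        (fun b hb i => ?_)
      · refine ih (fun b => f (Fin.cons r b : Fin (n + 1) → κ)) fun t b hb => ?_
        obtain ⟨c, hc⟩ := h t.succ (Fin.cons r b : Fin (n + 1) → κ) (fun i => by
          refine Fin.cases ?_ (fun i => ?_) i
          · rw [Fin.cons_zero]
            exact hsS hr
          · rw [Fin.cons_succ]
            exact hb i)
        refine ⟨c, fun z hz => ?_⟩
        rw [← hc z hz, Fin.cons_update]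
      · change eval b (X i.succ) ∈ S
        rw [eval_X]
        exact hb _
    refine Ph_congr (Ph.sum s hr) fun b hb => ?_
    obtain ⟨c, hc⟩ := h 0 b hb
    have h1 : f b = pe D c (b 0) := by
      rw [← hc (b 0) (hb 0), Function.update_eq_self]
    rw [h1, interp hsc]
    refine Finset.sum_congr rfl fun r hr => ?_
    have h4 : eval b (Polynomial.eval₂ C (X 0) (Lagrange.basis s id r)) =
        (Lagrange.basis s id r).eval (b 0) := by
      rw [Polynomial.hom_eval₂, eval_X]
      have h5 : (eval b).comp C = RingHom.id κ := RingHom.ext fun c => eval_C c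
      rw [h5]
      rfl
    rw [h4, ← hc r (hsS hr)]
    congr 2
    funext i
    refine Fin.cases ?_ (fun i => ?_) i
    · rw [Function.update_self, Fin.cons_zero]
    · rw [Function.update_of_ne (Fin.succ_ne_zero i), Fin.cons_succ, eval_X]

/-- Proof: as `GM.sep_poly`: `Fintype.equivFin σ` and `Ph.comp`. -/
theorem sepS {S : Set κ} (hS : S.Infinite) {σ : Type} [Fintype σ] [DecidableEq σ]
    (f : (σ → κ) → H) (D : ℕ)
    (h : ∀ (s : σ) (b : σ → κ), (∀ i, b i ∈ S) → ∃ c : ℕ → H, ∀ z ∈ S,
      f (Function.update b s z) = pe D c z) :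
    Ph {b | ∀ i, b i ∈ S} f := by
  let e := Fintype.equivFin σ
  have h1 : Ph {b : Fin (Fintype.card σ) → κ | ∀ i, b i ∈ S} (fun b => f (b ∘ e)) := by
    refine sepS_fin hS _ D fun t b hb => ?_
    obtain ⟨c, hc⟩ := h (e.symm t) (b ∘ e) fun i => hb (e i)
    refine ⟨c, fun z hz => ?_⟩
    rw [← hc z hz, Function.update_comp_equiv]
  refine Ph_congr (h1.comp (fun i => (X (e.symm i) : MvPolynomial σ κ))
    (T' := {b | ∀ i, b i ∈ S}) (fun b hb i => ?_)) fun b _ => ?_
  · change eval b (X (e.symm i)) ∈ S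
    rw [eval_X]
    exact hb _
  · congr 1
    funext i
    change b i = eval b (X (e.symm (e i)))
    rw [e.symm_apply_apply, eval_X]

end PL
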