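import Pool.Agent.Lib.MP_f80667_ag.Pl.B
import Pool.Agent.Lib.MP_f80667_ag.Pl.G

/-!
Linear forms `P c` with values in a vector space `H` and with polynomial restrictions to all lines.

* `Ds A ϖ c`: the disc of radius `nm ϖ` around `c`.
* `Lp Q S D P`: the data: a set `S` of points, on which `P c` is linear, continuous in `c`, and of which the restriction to the lines is a
  polynomial of degree at most `D`.
-/

open Polynomial

namespace PL

variable {E H σ : Type} [Field E] [AddCommGroup H] [Module E H]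

/-- The disc. -/
def Ds (A : Na E) (ϖ : E) (c : σ → E) : Set (σ → E) := {c' | ∀ i, A.nm (c' i - c i) ≤ A.nm ϖ}

/-- A linear form with values in `H` which depends continuously on the point and is a polynomial along the lines. -/
structure Lp [DecidableEq σ] {A : Na E} (Q : Nh A H) (S : Set (σ → E)) (D : ℕ)
    (P : (σ → E) → (σ → E) → H) : Prop where
  add : ∀ c ∈ S, ∀ x y, P c (x + y) = P c x + P c y
  smul : ∀ c ∈ S, ∀ (a : E) (x : σ → E), P c (a • x) = a • P c x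
  line : ∀ c ∈ S, ∀ b : σ → E, (∀ i, A.nm (b i) ≤ 1) → ∃ q : ℕ → H,
    ∀ z, A.nm z ≤ 1 → c + z • b ∈ S → P (c + z • b) b = pe D q z
  cont : ∀ c ∈ S, ∀ ε : ℝ, 0 < ε → ∃ δ : ℝ, 0 < δ ∧ ∀ c' ∈ S, (∀ i, A.nm (c' i - c i) < δ) →
    ∀ i, Q.n (P c' (Pi.single i 1) - P c (Pi.single i 1)) < ε

variable [DecidableEq σ] {A : Na E} {Q : Nh A H} {S : Set (σ → E)} {D : ℕ}
  {P : (σ → E) → (σ → E) → H} {ϖ : E}

/-- A point of a disc moved by `ϖ b`, `b` integral. Proof: `nm (a + b) ≤ max`, `nm (ϖ z) ≤ nm ϖ`. -/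
theorem ds_add {c c' b : σ → E} (hc : c' ∈ Ds A ϖ c) (hb : ∀ i, A.nm (b i) ≤ 1) :
    c' + ϖ • b ∈ Ds A ϖ c := by
  intro i
  have h1 : (c' + ϖ • b) i - c i = (c' i - c i) + ϖ * b i := by
    rw [Pi.add_apply, Pi.smul_apply, smul_eq_mul]
    ring
  rw [h1]
  refine (A.add _ _).trans (max_le (hc i) ?_)
  rw [A.mul]
  exact mul_le_of_le_one_right (A.nonneg _) (hb i)

private theorem h_zero (A : Na E) : A.nm 0 ≤ 1 := by
  rw [(A.zero_iff 0).2 rfl]
  exact zero_le_one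

private theorem h_single (A : Na E) (i : σ) {a : E} (ha : A.nm a ≤ 1) (j : σ) :
    A.nm ((Pi.single i a : σ → E) j) ≤ 1 := by
  by_cases hj : j = i
  · subst hj
    rwa [Pi.single_eq_same]
  · rw [Pi.single_eq_of_ne hj]
    exact h_zero A

private theorem h_add (A : Na E) {x y : σ → E} (hx : ∀ j, A.nm (x j) ≤ 1)
    (hy : ∀ j, A.nm (y j) ≤ 1) (j : σ) : A.nm ((x + y) j) ≤ 1 := by
  rw [Pi.add_apply]
  exact (A.add _ _).trans (max_le (hx j) (hy j))

private theorem h_smul (A : Na E) {x : σ → E} (hx : ∀ j, A.nm (x j) ≤ 1) {a : E}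
    (ha : A.nm a ≤ 1) (j : σ) : A.nm ((a • x) j) ≤ 1 := by
  rw [Pi.smul_apply, smul_eq_mul, A.mul]
  exact mul_le_one₀ ha (A.nonneg _) (hx j)

private theorem h_line (h : Lp Q S D P) (h0 : ϖ ≠ 0) (h1 : A.nm ϖ < 1) {c₀ c : σ → E}
    (hS : Ds A ϖ c₀ ⊆ S) (hc : c ∈ Ds A ϖ c₀) (θ : H →ₗ[E] E) (x w : σ → E)
    (hx : ∀ j, A.nm (x j) ≤ 1) (hw : ∀ j, A.nm (w j) ≤ 1) :
    ∃ q : E[X], q.natDegree ≤ D ∧ ∀ z : E, A.nm z ≤ 1 →
      θ (P (c + ϖ • (x + z • w)) w) = q.eval z := by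
  have hm : ∀ z : E, A.nm z ≤ 1 → c + ϖ • (x + z • w) ∈ S := fun z hz =>
    hS (ds_add hc (h_add A hx (h_smul A hw hz)))
  have hx0 : c + ϖ • x ∈ S := hS (ds_add hc hx)
  obtain ⟨q, hq⟩ := h.line (c + ϖ • x) hx0 (ϖ • w) (h_smul A hw h1.le)
  obtain ⟨r, hr1, hr2⟩ := dual_pe θ D q
  refine ⟨C ϖ⁻¹ * r, (natDegree_C_mul_le _ _).trans hr1, fun z hz => ?_⟩
  have e1 : c + ϖ • x + z • ϖ • w = c + ϖ • (x + z • w) := by
    rw [smul_add, smul_comm z ϖ w, add_assoc]
  have h2 := hq z hz (by rw [e1]; exact hm z hz)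
  rw [e1, h.smul _ (hm z hz)] at h2
  rw [eval_mul, eval_C, ← hr2, ← h2, map_smul, smul_eq_mul, inv_mul_cancel_left₀ h0]

/-- The two functions in the directions `i` and `k`, after a linear form `θ`. Proof: `Lp.line` at the point `c + ϖ (x e_i + y e_k)` with
`b = ϖ e_i`, `ϖ e_k`, `ϖ (e_i + t e_k)`: `P (..) b` is `ϖ` times `U`, `V`, `U + t V` (`Lp.add`, `Lp.smul`); `dual_pe`; divide the polynomial by
`ϖ`. All points are in the disc (`ds_add`). -/
theorem Lp.uv [CharZero E] (h : Lp Q S D P) (h0 : ϖ ≠ 0) (h1 : A.nm ϖ < 1) {c₀ c : σ → E}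
    (hS : Ds A ϖ c₀ ⊆ S) (hc : c ∈ Ds A ϖ c₀) {i k : σ} (hik : i ≠ k) (θ : H →ₗ[E] E) :
    Uv (R := A.Ra) D
      (fun g => θ (P (c + ϖ • (Pi.single i (g.1 : E) + Pi.single k (g.2 : E))) (Pi.single i 1)))
      (fun g => θ (P (c + ϖ • (Pi.single i (g.1 : E) + Pi.single k (g.2 : E))) (Pi.single k 1))) := by
  have hint : ∀ g : A.Ra × A.Ra, ∀ j,
      A.nm ((Pi.single i (g.1 : E) + Pi.single k (g.2 : E) : σ → E) j) ≤ 1 := fun g =>
    h_add A (h_single A i g.1.2.1) (h_single A k g.2.2.1)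
  have hsm : ∀ (i : σ) (a : E), (Pi.single i a : σ → E) = a • Pi.single i 1 := by
    intro i a
    rw [← Pi.single_smul, smul_eq_mul, mul_one]
  refine ⟨fun g => ?_, fun g => ?_, fun g t => ?_⟩
  · obtain ⟨q, hq1, hq2⟩ := h_line h h0 h1 hS hc θ _ (Pi.single i 1) (hint g)
      (h_single A i A.one.le)
    refine ⟨q, hq1, fun z => ?_⟩
    have e1 : (Pi.single i (((g + (z, 0)).1 : A.Ra) : E) +
        Pi.single k (((g + (z, 0)).2 : A.Ra) : E) : σ → E) =
        Pi.single i (g.1 : E) + Pi.single k (g.2 : E) + (z : E) • Pi.single i 1 := by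
      rw [Prod.fst_add, Prod.snd_add, add_zero, Subring.coe_add, Pi.single_add, hsm i (z : E)]
      abel
    rw [e1]
    exact hq2 z z.2.1
  · obtain ⟨q, hq1, hq2⟩ := h_line h h0 h1 hS hc θ _ (Pi.single k 1) (hint g)
      (h_single A k A.one.le)
    refine ⟨q, hq1, fun z => ?_⟩
    have e1 : (Pi.single i (((g + (0, z)).1 : A.Ra) : E) +
        Pi.single k (((g + (0, z)).2 : A.Ra) : E) : σ → E) =
        Pi.single i (g.1 : E) + Pi.single k (g.2 : E) + (z : E) • Pi.single k 1 := by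
      rw [Prod.fst_add, Prod.snd_add, add_zero, Subring.coe_add, Pi.single_add, hsm k (z : E)]
      abel
    rw [e1]
    exact hq2 z z.2.1
  · obtain ⟨q, hq1, hq2⟩ := h_line h h0 h1 hS hc θ _ (Pi.single i 1 + (t : E) • Pi.single k 1)
      (hint g) (h_add A (h_single A i A.one.le) (h_smul A (h_single A k A.one.le) t.2.1))
    refine ⟨q, hq1, fun z => ?_⟩
    have e1 : (Pi.single i (((g + (z, t * z)).1 : A.Ra) : E) +
        Pi.single k (((g + (z, t * z)).2 : A.Ra) : E) : σ → E) =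
        Pi.single i (g.1 : E) + Pi.single k (g.2 : E) +
          (z : E) • (Pi.single i 1 + (t : E) • Pi.single k 1) := by
      rw [Prod.fst_add, Prod.snd_add, Subring.coe_add, Subring.coe_add, Subring.coe_mul,
        Pi.single_add, Pi.single_add, hsm i (z : E), hsm k ((t : E) * (z : E)), smul_add,
        smul_smul, mul_comm (z : E) (t : E)]
      abel
    have hm : c + ϖ • (Pi.single i (g.1 : E) + Pi.single k (g.2 : E) +
          (z : E) • (Pi.single i 1 + (t : E) • Pi.single k 1)) ∈ S :=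
      hS (ds_add hc (h_add A (hint g) (h_smul A (h_add A (h_single A i A.one.le)
        (h_smul A (h_single A k A.one.le) t.2.1)) z.2.1)))
    have h3 := hq2 z z.2.1
    rw [h.add _ hm, h.smul _ hm, map_add, map_smul, smul_eq_mul] at h3
    rw [e1]
    exact h3

end PL
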