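import Pool.Agent.Lib.MP_f80667_ag.Pl.E3
import Pool.Agent.Lib.MP_f80667_ag.Pl.H

/-! On a disc the values `P c e_i` are polynomials in every variable. -/

open Polynomial

namespace PL

variable {E H σ : Type} [Field E] [AddCommGroup H] [Module E H]

variable [DecidableEq σ] {A : Na E} {Q : Nh A H} {S : Set (σ → E)} {D : ℕ}
  {P : (σ → E) → (σ → E) → H} {ϖ : E}

private theorem h2_pe_up {n N : ℕ} (h : n ≤ N) (a : E) (q : ℕ → H) (z : E) :
    a • pe n q z = pe N (fun j => if j ≤ n then a • q j else 0) z := by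
  unfold pe
  rw [Finset.smul_sum]
  have hsub : Finset.range (n + 1) ⊆ Finset.range (N + 1) := by
    intro x hx
    rw [Finset.mem_range] at hx ⊢
    omega
  rw [← Finset.sum_subset hsub]
  · apply Finset.sum_congr rfl
    intro x hx
    rw [Finset.mem_range] at hx
    have hx' : x ≤ n := by omega
    simp only [if_pos hx']
    rw [smul_comm]
  · intro x _ hx
    rw [Finset.mem_range, not_lt] at hx
    have hx' : ¬ x ≤ n := by omega
    simp only [if_neg hx', smul_zero]

private theorem h2_single {k : σ} {y : E} (hy : A.nm y ≤ 1) (i : σ) :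
    A.nm ((Pi.single k y : σ → E) i) ≤ 1 := by
  rcases eq_or_ne i k with rfl | h
  · rw [Pi.single_eq_same]
    exact hy
  · rw [Pi.single_eq_of_ne h]
    exact ((A.zero_iff 0).2 rfl).le.trans zero_le_one

/-- Proof: `k = i`: `Lp.line` with `b = ϖ e_i`, divided by `ϖ` (more coefficients `0`). `k ≠ i`: `Lp.uv` and `Uv.poly` at `g = 0` for every `θ`,
`pe_of_dual` for the infinite set of the elements of `Ra` (if `y` is in `Ra`, the powers of a prime `p` with `nm p < 1` or all natural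
numbers), `Nh.dn_ext` (the continuity of `y → P (c + ϖ y e_k) e_i` from `Lp.cont`). -/
theorem Lp.one [CharZero E] (h : Lp Q S D P) (hD : A.Dn) (h0 : ϖ ≠ 0) (h1 : A.nm ϖ < 1)
    {c₀ c : σ → E} (hS : Ds A ϖ c₀ ⊆ S) (hc : c ∈ Ds A ϖ c₀) (i k : σ) :
    ∃ q : ℕ → H, ∀ y, A.nm y ≤ 1 →
      P (c + ϖ • Pi.single k y) (Pi.single i 1) = pe (4 * D + 3) q y := by
  have hmem : ∀ y : E, A.nm y ≤ 1 → c + ϖ • (Pi.single k y : σ → E) ∈ S := fun y hy =>
    hS (ds_add hc (h2_single hy))
  rcases eq_or_ne i k with rfl | hik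
  · obtain ⟨q, hq⟩ := h.line c (hS hc) (ϖ • (Pi.single i (1 : E) : σ → E)) (by
      intro j
      rw [Pi.smul_apply, smul_eq_mul, A.mul]
      exact mul_le_one₀ h1.le (A.nonneg _) (h2_single A.one.le j))
    refine ⟨fun j => if j ≤ D then ϖ⁻¹ • q j else 0, fun y hy => ?_⟩
    rw [← h2_pe_up (by omega) ϖ⁻¹ q y]
    have hpt : c + y • (ϖ • (Pi.single i (1 : E) : σ → E)) = c + ϖ • (Pi.single i y : σ → E) := by
      rw [smul_comm, ← Pi.single_smul, smul_eq_mul, mul_one]
    have h2 := hq y hy (by rw [hpt]; exact hmem y hy)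
    rw [hpt, h.smul _ (hmem y hy)] at h2
    rw [← h2, smul_smul, inv_mul_cancel₀ h0, one_smul]
  · have hpoly : ∀ θ : H →ₗ[E] E, ∃ q : E[X], q.natDegree ≤ 4 * D + 3 ∧
        ∀ z ∈ (A.Ra : Set E), θ (P (c + ϖ • Pi.single k z) (Pi.single i 1)) = q.eval z := by
      intro θ
      obtain ⟨q, hq, hq2⟩ := (h.uv h0 h1 hS hc hik θ).poly (fun a b hab => Subtype.ext hab)
        (fun t => t.2.2) 0
      refine ⟨q, hq, fun z hz => ?_⟩
      have h3 := hq2 ⟨z, hz⟩
      have h4 : (Pi.single i (((0 : A.Ra × A.Ra) + (0, (⟨z, hz⟩ : A.Ra))).1 : E) : σ → E)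
          + Pi.single k (((0 : A.Ra × A.Ra) + (0, (⟨z, hz⟩ : A.Ra))).2 : E) = Pi.single k z := by
        simp
      rw [h4] at h3
      exact h3
    have hinf : (A.Ra : Set E).Infinite :=
      Set.infinite_of_injective_forall_mem (f := fun n : ℕ => (n : E)) Nat.cast_injective
        (fun n => natCast_mem A.Ra n)
    obtain ⟨q, hq⟩ := pe_of_dual hinf hpoly
    refine ⟨q, fun y hy => ?_⟩
    refine Q.dn_ext (f := fun y => P (c + ϖ • Pi.single k y) (Pi.single i 1)) hD ?_ hq hy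
    intro x hx ε hε
    obtain ⟨δ, hδ, hδ2⟩ := h.cont _ (hmem x hx) ε hε
    refine ⟨δ, hδ, fun y' hy' hyx => hδ2 _ (hmem y' hy') (fun j => ?_) i⟩
    have h5 : (c + ϖ • (Pi.single k y' : σ → E)) j - (c + ϖ • (Pi.single k x : σ → E)) j
        = ϖ * ((Pi.single k (y' - x) : σ → E) j) := by
      rw [Pi.single_sub]
      simp only [Pi.add_apply, Pi.smul_apply, Pi.sub_apply, smul_eq_mul]
      ring
    rw [h5, A.mul]
    rcases eq_or_ne j k with rfl | hjk
    · rw [Pi.single_eq_same]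
      calc A.nm ϖ * A.nm (y' - x) ≤ 1 * A.nm (y' - x) :=
            mul_le_mul_of_nonneg_right h1.le (A.nonneg _)
        _ = A.nm (y' - x) := one_mul _
        _ < δ := hyx
    · rw [Pi.single_eq_of_ne hjk, (A.zero_iff 0).2 rfl, mul_zero]
      exact hδ

end PL
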