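import Pool.Agent.Lib.MP_f80667_ag.Pl.F3
import Pool.Agent.Lib.MP_f80667_ag.Pl.H2

/-! The local theorem. -/

open Polynomial

namespace PL

variable {E H σ : Type} [Field E] [AddCommGroup H] [Module E H]

variable [DecidableEq σ] {A : Na E} {Q : Nh A H} {S : Set (σ → E)} {D : ℕ}
  {P : (σ → E) → (σ → E) → H} {ϖ : E}

/-- **The local theorem.** Proof: `sepS` for `{nm x ≤ 1}` and `f b = P (c₀ + ϖ b) e_i`: for the variable `s` at `b` let
`c = c₀ + ϖ (update b s 0)`, `Lp.one`; then `Ph.comp` with `(X - c₀) / ϖ`. -/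
theorem Lp.loc [Fintype σ] [CharZero E] (h : Lp Q S D P) (hD : A.Dn) (h0 : ϖ ≠ 0)
    (h1 : A.nm ϖ < 1) {c₀ : σ → E} (hS : Ds A ϖ c₀ ⊆ S) (i : σ) :
    Ph (Ds A ϖ c₀) (fun c => P c (Pi.single i 1)) := by
  have hz : A.nm 0 = 0 := (A.zero_iff 0).2 rfl
  have hp : ∀ b : σ → E, (∀ j, A.nm (b j) ≤ 1) → c₀ + ϖ • b ∈ Ds A ϖ c₀ := fun b hb =>
    ds_add (fun j => by
      rw [sub_self, hz]
      exact A.nonneg _) hb
  have h2 : Ph {b : σ → E | ∀ j, b j ∈ {x : E | A.nm x ≤ 1}}
      (fun b => P (c₀ + ϖ • b) (Pi.single i 1)) := by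
    refine sepS (A.inf_int h0 h1) _ (4 * D + 3) fun s b hb => ?_
    have hb0 : ∀ j, A.nm (Function.update b s 0 j) ≤ 1 := by
      intro j
      by_cases hj : j = s
      · subst hj
        rw [Function.update_self, hz]
        exact zero_le_one
      · rw [Function.update_of_ne hj]
        exact hb j
    obtain ⟨q, hq⟩ := h.one hD h0 h1 hS (hp _ hb0) i s
    refine ⟨q, fun z hz' => ?_⟩
    have e : c₀ + ϖ • Function.update b s z =
        c₀ + ϖ • Function.update b s 0 + ϖ • Pi.single s z := by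
      funext j
      by_cases hj : j = s
      · subst hj
        rw [Pi.add_apply, Pi.add_apply, Pi.add_apply, Pi.smul_apply, Pi.smul_apply, Pi.smul_apply,
          Function.update_self, Function.update_self, Pi.single_eq_same, smul_zero, add_zero]
      · rw [Pi.add_apply, Pi.add_apply, Pi.add_apply, Pi.smul_apply, Pi.smul_apply, Pi.smul_apply,
          Function.update_of_ne hj, Function.update_of_ne hj, Pi.single_eq_of_ne hj, smul_zero,
          add_zero]
    change P (c₀ + ϖ • Function.update b s z) _ = _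
    rw [e]
    exact hq z hz'
  have hu : ∀ b ∈ Ds A ϖ c₀, (fun j => MvPolynomial.eval b
      ((MvPolynomial.X j - MvPolynomial.C (c₀ j)) * MvPolynomial.C ϖ⁻¹)) ∈
      {b : σ → E | ∀ j, b j ∈ {x : E | A.nm x ≤ 1}} := by
    intro b hb j
    change A.nm (MvPolynomial.eval b
      ((MvPolynomial.X j - MvPolynomial.C (c₀ j)) * MvPolynomial.C ϖ⁻¹)) ≤ 1
    rw [map_mul, map_sub, MvPolynomial.eval_X, MvPolynomial.eval_C, MvPolynomial.eval_C, A.mul]
    calc A.nm (b j - c₀ j) * A.nm ϖ⁻¹ ≤ A.nm ϖ * A.nm ϖ⁻¹ :=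
          mul_le_mul_of_nonneg_right (hb j) (A.nonneg _)
      _ = 1 := by rw [← A.mul, mul_inv_cancel₀ h0, A.one]
  have h3 := h2.comp (fun j => (MvPolynomial.X j - MvPolynomial.C (c₀ j)) * MvPolynomial.C ϖ⁻¹) hu
  have e2 : (fun c => P c (Pi.single i 1)) = fun b : σ → E =>
      P (c₀ + ϖ • fun j => MvPolynomial.eval b
        ((MvPolynomial.X j - MvPolynomial.C (c₀ j)) * MvPolynomial.C ϖ⁻¹)) (Pi.single i 1) := by
    funext b
    have e3 : (c₀ + ϖ • fun j => MvPolynomial.eval b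
        ((MvPolynomial.X j - MvPolynomial.C (c₀ j)) * MvPolynomial.C ϖ⁻¹)) = b := by
      funext j
      rw [Pi.add_apply, Pi.smul_apply, map_mul, map_sub, MvPolynomial.eval_X,
        MvPolynomial.eval_C, MvPolynomial.eval_C, smul_eq_mul]
      field_simp
      ring
    rw [e3]
  rw [e2]
  exact h3

end PL
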