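import Pool.Agent.Lib.MP_f80667_ag.Pl.F2
import Pool.Agent.Lib.MP_f80667_ag.Pl.H

/-! Gluing. -/

open Polynomial

namespace PL

variable {E H σ : Type} [Field E] [AddCommGroup H] [Module E H]

variable [DecidableEq σ] {A : Na E} {Q : Nh A H} {S : Set (σ → E)} {D : ℕ}
  {P : (σ → E) → (σ → E) → H} {ϖ : E}

/-- `P c x` is the sum of the `x i • P c e_i`. Proof: `Lp.add`, `Lp.smul`, induction over `Finset.univ`. -/
theorem Lp.sum [Fintype σ] (h : Lp Q S D P) {c : σ → E} (hc : c ∈ S) (x : σ → E) :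
    P c x = ∑ i, x i • P c (Pi.single i 1) := by
  have h0 : P c 0 = 0 := by
    have := h.smul c hc 0 0
    rwa [zero_smul, zero_smul] at this
  have h1 : ∀ s : Finset σ, P c (∑ i ∈ s, x i • Pi.single i 1) =
      ∑ i ∈ s, x i • P c (Pi.single i 1) := by
    intro s
    induction s using Finset.induction_on with
    | empty => rw [Finset.sum_empty, Finset.sum_empty, h0]
    | insert a s ha ih =>
      rw [Finset.sum_insert ha, Finset.sum_insert ha, h.add c hc, h.smul c hc, ih]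
  have h2 : (∑ i, x i • Pi.single i 1 : σ → E) = x := by
    funext j
    rw [Finset.sum_apply]
    simp [Pi.single_apply]
  rw [← h1, h2]

/-- A polynomial restricted to a line. Proof: `MvPolynomial.aeval (fun i => C (a i) + C (b i) * X) (g r)`, a common bound of the degrees. -/
theorem ph_line {m : ℕ} (g : Fin m → MvPolynomial σ E) (w : Fin m → H) (a b : σ → E) :
    ∃ (N : ℕ) (q : ℕ → H), ∀ z : E,
      ∑ r, MvPolynomial.eval (a + z • b) (g r) • w r = pe N q z := by
  have hev : ∀ (p : MvPolynomial σ E) (z : E), MvPolynomial.eval (a + z • b) p =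
      (MvPolynomial.aeval (fun i => (C (a i) + C (b i) * X : E[X])) p).eval z := by
    intro p z
    induction p using MvPolynomial.induction_on with
    | C r => rw [MvPolynomial.eval_C, MvPolynomial.aeval_C, algebraMap_eq, eval_C]
    | add p q hp hq => rw [map_add, map_add, eval_add, hp, hq]
    | mul_X p i hp =>
      rw [map_mul, map_mul, eval_mul, hp, MvPolynomial.eval_X, MvPolynomial.aeval_X, eval_add,
        eval_mul, eval_C, eval_C, eval_X, Pi.add_apply, Pi.smul_apply, smul_eq_mul, mul_comm z]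
  refine ⟨Finset.univ.sup fun r =>
    (MvPolynomial.aeval (fun i => (C (a i) + C (b i) * X : E[X])) (g r)).natDegree,
    fun j => ∑ r, (MvPolynomial.aeval (fun i => (C (a i) + C (b i) * X : E[X])) (g r)).coeff j •
      w r, fun z => ?_⟩
  rw [pe]
  simp only [Finset.smul_sum]
  rw [Finset.sum_comm]
  refine Finset.sum_congr rfl fun r _ => ?_
  rw [hev, eval_eq_sum_range' (Nat.lt_succ_of_le (Finset.le_sup (f := fun r =>
    (MvPolynomial.aeval (fun i => (C (a i) + C (b i) * X : E[X])) (g r)).natDegree)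
    (Finset.mem_univ r))), Finset.sum_smul]
  refine Finset.sum_congr rfl fun j _ => ?_
  rw [smul_smul, mul_comm]

private theorem i_pe_sum [Fintype σ] (N : σ → ℕ) (q : σ → ℕ → H) (b : σ → E) :
    ∃ (N' : ℕ) (q' : ℕ → H), ∀ z : E, ∑ i, b i • pe (N i) (q i) z = pe N' q' z := by
  refine ⟨Finset.univ.sup N, fun j => ∑ i, if j ≤ N i then b i • q i j else 0, fun z => ?_⟩
  unfold pe
  simp only [Finset.smul_sum]
  rw [Finset.sum_comm (s := Finset.range (Finset.univ.sup N + 1))]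
  refine Finset.sum_congr rfl fun i _ => ?_
  have hle : N i ≤ Finset.univ.sup N := Finset.le_sup (Finset.mem_univ i)
  refine Eq.symm ?_
  rw [← Finset.sum_subset (s₁ := Finset.range (N i + 1))
    (s₂ := Finset.range (Finset.univ.sup N + 1))]
  · refine Finset.sum_congr rfl fun j hj => ?_
    have hj' : j ≤ N i := Nat.lt_succ_iff.1 (Finset.mem_range.1 hj)
    rw [if_pos hj', smul_comm]
  · intro j hj
    rw [Finset.mem_range] at hj ⊢
    omega
  · intro j _ hj
    have hj' : ¬ j ≤ N i := fun hh => hj (Finset.mem_range.2 (Nat.lt_succ_of_le hh))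
    rw [if_neg hj', smul_zero]

/-- **Gluing.** The polynomials `g i` of the disc around `c₀` are right at every point `c₁` of `S`. Proof: for `c` in the disc let `b = c₁ - c`
(integral). `Lp.line` at `c`: `P (c + z b) b = pe D q z` for all `z` with `nm z ≤ 1`, `c + z b ∈ S`. For `nm z ≤ nm ϖ` the
point `c + z b` is in the disc, so `pe D q z = ∑ i, b i • ∑ r, eval (c + z b) (g i r) • w i r`, a polynomial in `z` (`ph_line`): equal to
`pe D q` (infinitely many `z`: `inf_sml`, `pe_ext`). `z = 1`: `P c₁ b = ∑ i, b i • (the value at c₁)`. Take `c = c₀` and `c = c₀ - ϖ e_j` and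
subtract: `ϖ • P c₁ e_j = ϖ • (the value at c₁)`. -/
theorem Lp.glue [Fintype σ] (h : Lp Q S D P) (h0 : ϖ ≠ 0) (h1 : A.nm ϖ < 1)
    (hI : ∀ c ∈ S, ∀ i, A.nm (c i) ≤ 1) {c₀ : σ → E} (hS : Ds A ϖ c₀ ⊆ S) (hc₀ : c₀ ∈ S)
    {m : σ → ℕ} {g : ∀ i, Fin (m i) → MvPolynomial σ E} {w : ∀ i, Fin (m i) → H}
    (hg : ∀ c ∈ Ds A ϖ c₀, ∀ i,
      P c (Pi.single i 1) = ∑ r, MvPolynomial.eval c (g i r) • w i r) {c₁ : σ → E}
    (hc₁ : c₁ ∈ S) (j : σ) :
    P c₁ (Pi.single j 1) = ∑ r, MvPolynomial.eval c₁ (g j r) • w j r := by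
  have hpos : 0 ≤ A.nm ϖ := A.nonneg _
  have hz0 : A.nm 0 = 0 := (A.zero_iff 0).2 rfl
  have hkey : ∀ c ∈ Ds A ϖ c₀, P c₁ (c₁ - c) =
      ∑ i, (c₁ - c) i • ∑ r, MvPolynomial.eval c₁ (g i r) • w i r := by
    intro c hc
    have hb : ∀ i, A.nm ((c₁ - c) i) ≤ 1 := fun i =>
      (A.sub _ _).trans (max_le (hI c₁ hc₁ i) (hI c (hS hc) i))
    obtain ⟨q, hq⟩ := h.line c (hS hc) (c₁ - c) hb
    choose N q' hq' using fun i => ph_line (g i) (w i) c (c₁ - c)
    obtain ⟨N', q'', hq''⟩ := i_pe_sum N q' (c₁ - c)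
    have hin : ∀ z : E, A.nm z ≤ A.nm ϖ → c + z • (c₁ - c) ∈ Ds A ϖ c₀ := by
      intro z hz i
      have e1 : (c + z • (c₁ - c)) i - c₀ i = (c i - c₀ i) + z * (c₁ - c) i := by
        rw [Pi.add_apply, Pi.smul_apply, smul_eq_mul]
        ring
      rw [e1]
      refine (A.add _ _).trans (max_le (hc i) ?_)
      rw [A.mul]
      exact (mul_le_of_le_one_right (A.nonneg _) (hb i)).trans hz
    have hext : ∀ z ∈ {x : E | A.nm x ≤ A.nm ϖ}, pe D q z = pe N' q'' z := by
      intro z hz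
      have hz' : A.nm z ≤ A.nm ϖ := hz
      rw [← hq z (hz'.trans h1.le) (hS (hin z hz')), h.sum (hS (hin z hz')), ← hq'']
      refine Finset.sum_congr rfl fun i _ => ?_
      rw [hg _ (hin z hz') i, hq' i z]
    have h2 := pe_ext (A.inf_sml h0 h1) hext 1
    have e2 : c + (1 : E) • (c₁ - c) = c₁ := by
      rw [one_smul, add_sub_cancel]
    have h3 := hq 1 A.one.le (by rw [e2]; exact hc₁)
    rw [e2] at h3
    rw [h3, h2, ← hq'']
    refine Finset.sum_congr rfl fun i _ => ?_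
    rw [← hq' i 1, e2]
  have hm0 : c₀ ∈ Ds A ϖ c₀ := fun i => by
    rw [sub_self, hz0]
    exact hpos
  have hm1 : c₀ + ϖ • (-Pi.single j 1 : σ → E) ∈ Ds A ϖ c₀ := ds_add hm0 fun i => by
    rw [Pi.neg_apply, A.neg]
    by_cases hi : i = j
    · subst hi
      rw [Pi.single_eq_same]
      exact A.one.le
    · rw [Pi.single_eq_of_ne hi, hz0]
      exact zero_le_one
  have k0 := hkey c₀ hm0
  have k1 := hkey _ hm1
  have e3 : c₁ - (c₀ + ϖ • (-Pi.single j 1 : σ → E)) = (c₁ - c₀) + ϖ • Pi.single j 1 := by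
    rw [smul_neg]
    abel
  rw [e3, h.add c₁ hc₁, h.smul c₁ hc₁, k0] at k1
  have e4 : ∑ i, ((c₁ - c₀) + ϖ • Pi.single j 1 : σ → E) i •
        ∑ r, MvPolynomial.eval c₁ (g i r) • w i r =
      (∑ i, (c₁ - c₀) i • ∑ r, MvPolynomial.eval c₁ (g i r) • w i r) +
        ϖ • ∑ r, MvPolynomial.eval c₁ (g j r) • w j r := by
    have e5 : ∀ i, ((c₁ - c₀) + ϖ • Pi.single j 1 : σ → E) i •
        ∑ r, MvPolynomial.eval c₁ (g i r) • w i r =
        (c₁ - c₀) i • (∑ r, MvPolynomial.eval c₁ (g i r) • w i r) +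
          (if i = j then ϖ • ∑ r, MvPolynomial.eval c₁ (g i r) • w i r else 0) := by
      intro i
      rw [Pi.add_apply, add_smul, Pi.smul_apply, smul_eq_mul]
      by_cases hi : i = j
      · subst hi
        rw [Pi.single_eq_same, mul_one, if_pos rfl]
      · rw [Pi.single_eq_of_ne hi, mul_zero, zero_smul, if_neg hi]
    rw [Finset.sum_congr rfl fun i _ => e5 i, Finset.sum_add_distrib, Finset.sum_ite_eq',
      if_pos (Finset.mem_univ j)]
  rw [e4] at k1
  exact smul_right_injective H h0 (add_left_cancel k1)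

end PL
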