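import Pool.Agent.Lib.MP_f80667_ag.Pl.H3
import Pool.Agent.Lib.MP_f80667_ag.Pl.I

/-!
**The planar lemma in characteristic `0`.** Let `S` be a set of points with integral coordinates which contains with every point the disc of
radius `nm ϖ`. A linear form `P c`, `c ∈ S`, with values in a normed space `H`, which is continuous in `c` and whose restrictions to the lines
are polynomials of bounded degree is a polynomial in `c`.
-/

open Polynomial

namespace PL

variable {E H σ : Type} [Field E] [AddCommGroup H] [Module E H]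

variable [DecidableEq σ] {A : Na E} {Q : Nh A H} {S : Set (σ → E)} {D : ℕ}
  {P : (σ → E) → (σ → E) → H} {ϖ : E}

/-- **The planar lemma in characteristic `0`.** Proof: `Lp.loc` around one point of `S` (if there is none: nothing to prove), `Lp.glue`. -/
theorem Lp.poly [Fintype σ] [CharZero E] (h : Lp Q S D P) (hD : A.Dn) (h0 : ϖ ≠ 0)
    (h1 : A.nm ϖ < 1) (hI : ∀ c ∈ S, ∀ i, A.nm (c i) ≤ 1) (hS : ∀ c ∈ S, Ds A ϖ c ⊆ S) (i : σ) :
    Ph S (fun c => P c (Pi.single i 1)) := by
  obtain hne | ⟨c₀, hc₀⟩ := S.eq_empty_or_nonempty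
  · exact ⟨0, fun i => i.elim0, fun i => i.elim0, fun c hc => by
      rw [hne] at hc
      exact absurd hc (Set.notMem_empty c)⟩
  · choose m g w hg using fun i => h.loc hD h0 h1 (hS c₀ hc₀) i
    exact ⟨m i, g i, w i, fun c hc => h.glue h0 h1 hI (hS c₀ hc₀) hc₀ (fun c hc i => hg i c hc) hc i⟩

/-- The form of the conclusion with monomials. Proof: `Lp.poly`, `Lp.sum`, `MvPolynomial.eval_eq'`; `T` is the union of the supports of
the `g i r`, `w i e = ∑ r, coeff e (g i r) • w i r`. -/
theorem Lp.polyE [Fintype σ] [CharZero E] (h : Lp Q S D P) (hD : A.Dn) (h0 : ϖ ≠ 0)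
    (h1 : A.nm ϖ < 1) (hI : ∀ c ∈ S, ∀ i, A.nm (c i) ≤ 1) (hS : ∀ c ∈ S, Ds A ϖ c ⊆ S) :
    ∃ (T : Finset (σ →₀ ℕ)) (w : σ → (σ →₀ ℕ) → H), ∀ c ∈ S, ∀ x : σ → E,
      P c x = ∑ i, ∑ e ∈ T, (x i * ∏ j, c j ^ e j) • w i e := by
  choose m g w hg using fun i => h.poly hD h0 h1 hI hS i
  refine ⟨Finset.univ.biUnion fun i => Finset.univ.biUnion fun r => (g i r).support,
    fun i e => ∑ r, (g i r).coeff e • w i r, fun c hc x => ?_⟩
  rw [h.sum hc x]
  refine Finset.sum_congr rfl fun i _ => ?_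
  have h3 : P c (Pi.single i 1) = ∑ r, MvPolynomial.eval c (g i r) • w i r := hg i c hc
  rw [h3, Finset.smul_sum]
  simp only [Finset.smul_sum]
  rw [Finset.sum_comm]
  refine Finset.sum_congr rfl fun r _ => ?_
  have h2 : MvPolynomial.eval c (g i r) =
      ∑ e ∈ Finset.univ.biUnion fun i => Finset.univ.biUnion fun r => (g i r).support,
        (g i r).coeff e * ∏ j, c j ^ e j := by
    rw [MvPolynomial.eval_eq']
    refine Finset.sum_subset (fun e he => ?_) fun e _ he => ?_
    · exact Finset.mem_biUnion.2 ⟨i, Finset.mem_univ i,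
        Finset.mem_biUnion.2 ⟨r, Finset.mem_univ r, he⟩⟩
    · rw [MvPolynomial.notMem_support_iff.1 he, zero_mul]
  rw [h2, Finset.sum_smul, Finset.smul_sum]
  refine Finset.sum_congr rfl fun e _ => ?_
  rw [smul_smul, smul_smul]
  congr 1
  ring

end PL
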