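import Pool.Agent.Lib.MP_f80667_ag.Pl.H

/-! Bounds for the coefficients of polynomials with values in a normed space. -/

open Polynomial

namespace PL

variable {E H σ : Type} [Field E] [AddCommGroup H] [Module E H] {A : Na E}

private theorem k_zero (Q : Nh A H) : Q.n 0 = 0 := by
  have h1 := Q.smul 0 0
  rwa [smul_zero, (A.zero_iff 0).2 rfl, zero_mul] at h1

private theorem k_sum {ι : Type*} (Q : Nh A H) (s : Finset ι) (f : ι → H) {M : ℝ} (hM : 0 ≤ M)
    (h : ∀ r ∈ s, Q.n (f r) ≤ M) : Q.n (∑ r ∈ s, f r) ≤ M := by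
  classical
  induction s using Finset.induction_on with
  | empty =>
    rw [Finset.sum_empty, k_zero]
    exact hM
  | insert a s ha ih =>
    rw [Finset.sum_insert ha]
    exact (Q.add _ _).trans (max_le (h a (Finset.mem_insert_self a s))
      (ih fun r hr => h r (Finset.mem_insert_of_mem hr)))

private theorem k_int {s : Finset E} {D : ℕ} (hs : s.card = D + 1) [DecidableEq E] (q : ℕ → H)
    {i : ℕ} (hi : i ≤ D) :
    q i = ∑ r ∈ s, (Lagrange.basis s id r).coeff i • pe D q r := by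
  have hinj : Set.InjOn (id : E → E) (s : Set E) := Set.injOn_id _
  have h1 : ∀ j ∈ Finset.range (D + 1),
      ∑ r ∈ s, (Lagrange.basis s id r).coeff i * r ^ j = if i = j then 1 else 0 := by
    intro j hj
    have h2 : (X ^ j : E[X]).degree < (s.card : ℕ) := by
      rw [degree_X_pow, hs]
      exact_mod_cast Finset.mem_range.1 hj
    have h3 := congrArg (fun p : E[X] => p.coeff i) (Lagrange.eq_interpolate hinj h2)
    simp only [Lagrange.interpolate_apply, finsetSum_coeff, coeff_C_mul, coeff_X_pow, eval_pow,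
      eval_X, id_eq] at h3
    rw [h3]
    exact Finset.sum_congr rfl fun r _ => mul_comm _ _
  unfold pe
  simp only [Finset.smul_sum, smul_smul]
  rw [Finset.sum_comm]
  have h4 : ∀ j ∈ Finset.range (D + 1),
      ∑ r ∈ s, ((Lagrange.basis s id r).coeff i * r ^ j) • q j = if i = j then q j else 0 := by
    intro j hj
    rw [← Finset.sum_smul, h1 j hj]
    by_cases h : i = j
    · rw [if_pos h, if_pos h, one_smul]
    · rw [if_neg h, if_neg h, zero_smul]
  rw [Finset.sum_congr rfl h4, Finset.sum_ite_eq, if_pos (Finset.mem_range.2 (by omega))]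

/-- Proof: with the distinct points `z_r = ϖ ^ (r + 1)`, `r ≤ D`, of the disc: `q i = ∑ r, (L_r.coeff i) • pe D q z_r` (after a linear form:
`Lagrange.eq_interpolate`), `K` a bound of the absolute values of the coefficients of the `L_r`. -/
theorem Nh.pe_bdd (Q : Nh A H) (D : ℕ) {ϖ : E} (h0 : ϖ ≠ 0) (h1 : A.nm ϖ < 1) :
    ∃ K : ℝ, 0 < K ∧ ∀ (q : ℕ → H) (C : ℝ), (∀ z, A.nm z ≤ A.nm ϖ → Q.n (pe D q z) ≤ C) →
      ∀ i ≤ D, Q.n (q i) ≤ K * C := by
  classical
  obtain ⟨s, hsS, hsc⟩ := (A.inf_sml h0 h1).exists_subset_card_eq (D + 1)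
  set T : ℝ := ∑ r ∈ s, ∑ i ∈ Finset.range (D + 1), A.nm ((Lagrange.basis s id r).coeff i)
    with hT
  have hT0 : ∀ r ∈ s, 0 ≤ ∑ i ∈ Finset.range (D + 1), A.nm ((Lagrange.basis s id r).coeff i) :=
    fun r _ => Finset.sum_nonneg fun i _ => A.nonneg _
  have hTle : ∀ r ∈ s, ∀ i ≤ D, A.nm ((Lagrange.basis s id r).coeff i) ≤ T := by
    intro r hr i hi
    refine le_trans ?_ (Finset.single_le_sum hT0 hr)
    exact Finset.single_le_sum (f := fun i => A.nm ((Lagrange.basis s id r).coeff i))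
      (fun i _ => A.nonneg _) (Finset.mem_range.2 (by omega))
  have hTn : 0 ≤ T := Finset.sum_nonneg hT0
  refine ⟨T + 1, by linarith, fun q C hC i hi => ?_⟩
  have hC0 : 0 ≤ C := by
    refine (Q.nonneg _).trans (hC 0 ?_)
    rw [(A.zero_iff 0).2 rfl]
    exact A.nonneg _
  rw [k_int hsc q hi]
  refine k_sum Q s _ (mul_nonneg (by linarith) hC0) fun r hr => ?_
  rw [Q.smul]
  exact mul_le_mul ((hTle r hr i hi).trans (by linarith)) (hC r (hsS hr)) (Q.nonneg _)
    (by linarith)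

/-- Proof: `pe_bdd`; `pe D q z - pe D q 0` is the sum of the `z ^ i • q i`, `1 ≤ i ≤ D`. -/
theorem Nh.pe_zlip (Q : Nh A H) (D : ℕ) {ϖ : E} (h0 : ϖ ≠ 0) (h1 : A.nm ϖ < 1) :
    ∃ K : ℝ, 0 < K ∧ ∀ (q : ℕ → H) (C : ℝ), (∀ z, A.nm z ≤ A.nm ϖ → Q.n (pe D q z) ≤ C) →
      ∀ z, A.nm z ≤ 1 → Q.n (pe D q z - pe D q (0 : E)) ≤ K * C * A.nm z := by
  obtain ⟨K, hK, h⟩ := Q.pe_bdd D h0 h1
  refine ⟨K, hK, fun q C hC z hz => ?_⟩
  have hC0 : 0 ≤ C := by
    refine (Q.nonneg _).trans (hC 0 ?_)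
    rw [(A.zero_iff 0).2 rfl]
    exact A.nonneg _
  unfold pe
  rw [← Finset.sum_sub_distrib]
  refine k_sum Q _ _ (mul_nonneg (mul_nonneg hK.le hC0) (A.nonneg _)) fun i hi => ?_
  have hi' : i ≤ D := by
    have := Finset.mem_range.1 hi
    omega
  rw [← sub_smul, Q.smul, mul_comm]
  refine mul_le_mul (h q C hC i hi') ?_ (A.nonneg _) (mul_nonneg hK.le hC0)
  rcases Nat.eq_zero_or_pos i with h2 | h2
  · rw [h2, pow_zero, pow_zero, sub_self, (A.zero_iff 0).2 rfl]
    exact A.nonneg _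
  · rw [zero_pow (by omega), sub_zero, A.pow]
    exact pow_le_of_le_one (A.nonneg z) hz (by omega)

end PL
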