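import Pool.Agent.Lib.MP_f80667_ag.Pl.K

/-!
Bounded linear forms with polynomial restrictions to the lines are continuous.

* `Lb Q S D P`: as `Lp`, with a bound in the place of the continuity.
-/

open Polynomial

namespace PL

variable {E H σ : Type} [Field E] [AddCommGroup H] [Module E H]

/-- A bounded linear form with values in `H` which is a polynomial along the lines. -/
structure Lb {A : Na E} (Q : Nh A H) (S : Set (σ → E)) (D : ℕ)
    (P : (σ → E) → (σ → E) → H) : Prop where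
  add : ∀ c ∈ S, ∀ x y, P c (x + y) = P c x + P c y
  smul : ∀ c ∈ S, ∀ (a : E) (x : σ → E), P c (a • x) = a • P c x
  line : ∀ c ∈ S, ∀ b : σ → E, (∀ i, A.nm (b i) ≤ 1) → ∃ q : ℕ → H,
    ∀ z, A.nm z ≤ 1 → c + z • b ∈ S → P (c + z • b) b = pe D q z
  bdd : ∃ C : ℝ, ∀ c ∈ S, ∀ x : σ → E, (∀ i, A.nm (x i) ≤ 1) → Q.n (P c x) ≤ C

variable {A : Na E} {Q : Nh A H} {S : Set (σ → E)} {D : ℕ}
  {P : (σ → E) → (σ → E) → H} {ϖ : E}

/-- Proof: the line `z ↦ P (c + z x) x = pe D q z`; for `nm z ≤ nm ϖ` the point is in the disc, so in `S`; `Lb.bdd`, `Nh.pe_zlip`. -/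
theorem Lb.par (h : Lb Q S D P) (h0 : ϖ ≠ 0) (h1 : A.nm ϖ < 1) (hS : ∀ c ∈ S, Ds A ϖ c ⊆ S) :
    ∃ B : ℝ, 0 < B ∧ ∀ c ∈ S, ∀ x : σ → E, (∀ i, A.nm (x i) ≤ 1) → ∀ s, A.nm s ≤ A.nm ϖ →
      Q.n (P (c + s • x) x - P c x) ≤ B * A.nm s := by
  obtain ⟨K, hK, hz⟩ := Q.pe_zlip D h0 h1
  obtain ⟨C, hC⟩ := h.bdd
  refine ⟨K * max C 1, mul_pos hK (lt_of_lt_of_le zero_lt_one (le_max_right _ _)),
    fun c hc x hx s hs => ?_⟩
  obtain ⟨q, hq⟩ := h.line c hc x hx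
  have hm : ∀ z, A.nm z ≤ A.nm ϖ → c + z • x ∈ S := by
    intro z hz
    refine hS c hc fun i => ?_
    have h2 : (c + z • x) i - c i = z * x i := by
      rw [Pi.add_apply, Pi.smul_apply, smul_eq_mul]
      ring
    rw [h2, A.mul]
    exact (mul_le_of_le_one_right (A.nonneg _) (hx i)).trans hz
  have hP : ∀ z, A.nm z ≤ A.nm ϖ → P (c + z • x) x = pe D q z := fun z hz' =>
    hq z (hz'.trans h1.le) (hm z hz')
  have h3 := hz q (max C 1) (fun z hz' => by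
    rw [← hP z hz']
    exact (hC _ (hm z hz') x hx).trans (le_max_left _ _)) s (hs.trans h1.le)
  have h4 : A.nm (0 : E) ≤ A.nm ϖ := by
    rw [(A.zero_iff 0).2 rfl]
    exact A.nonneg ϖ
  have h5 := hP 0 h4
  rw [zero_smul, add_zero] at h5
  rw [hP s hs, h5]
  exact h3

end PL
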