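import Pool.Agent.Lib.MP_f80667_ag.Pl.K2

/-! The dependence on the point, up to small errors. -/

open Polynomial

namespace PL

variable {E H σ : Type} [Field E] [AddCommGroup H] [Module E H]

variable {A : Na E} {Q : Nh A H} {S : Set (σ → E)} {D : ℕ}
  {P : (σ → E) → (σ → E) → H} {ϖ : E}

private theorem k3_neg (Q : Nh A H) (h : H) : Q.n (-h) = Q.n h := by
  have h1 := Q.smul (-1) h
  rwa [neg_one_smul, A.neg, A.one, one_mul] at h1

private theorem k3_sub (Q : Nh A H) (h h' : H) : Q.n (h - h') ≤ max (Q.n h) (Q.n h') := by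
  rw [sub_eq_add_neg, ← k3_neg Q h']
  exact Q.add h (-h')

private theorem k3_mem (hS : ∀ c ∈ S, Ds A ϖ c ⊆ S) {c : σ → E} (hc : c ∈ S) {w : σ → E}
    (hw : ∀ i, A.nm (w i) ≤ 1) {s : E} (hs : A.nm s ≤ A.nm ϖ) : c + s • w ∈ S := by
  refine hS c hc fun i => ?_
  have h1 : (c + s • w) i - c i = s * w i := by
    rw [Pi.add_apply, Pi.smul_apply, smul_eq_mul, add_sub_cancel_left]
  rw [h1, A.mul]
  calc A.nm s * A.nm (w i) ≤ A.nm s * 1 := mul_le_mul_of_nonneg_left (hw i) (A.nonneg _)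
    _ ≤ A.nm ϖ := by rw [mul_one]; exact hs

private theorem k3_mem' (hS : ∀ c ∈ S, Ds A ϖ c ⊆ S) {c : σ → E} (hc : c ∈ S) {w : σ → E}
    (hw : ∀ i, A.nm (w i) ≤ 1) {s : E} (hs : A.nm s ≤ A.nm ϖ) : c - s • w ∈ S := by
  have h1 : c - s • w = c + (-s) • w := by rw [neg_smul, sub_eq_add_neg]
  rw [h1]
  exact k3_mem hS hc hw (by rw [A.neg]; exact hs)

/-- Let `H (s; w, x) = P (c + s w) x - P c x`. Then `H (s; w, x) = H (s; - x, w)` up to `B nm s`. Proof:
`P (c + s w) x = P (c + s w) (x + w) - P (c + s w) w`; by `par` `P (c + s w) w` is `P c w`, and `P (c + s w) (x + w)` is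
`P (c + s w - s (x + w)) (x + w) = P (c - s x) x + P (c - s x) w`, where `P (c - s x) x` is `P c x` by `par`. -/
theorem Lb.sym {B : ℝ} (h : Lb Q S D P) (h1 : A.nm ϖ < 1) (hS : ∀ c ∈ S, Ds A ϖ c ⊆ S)
    (hB : ∀ c ∈ S, ∀ x : σ → E, (∀ i, A.nm (x i) ≤ 1) → ∀ s, A.nm s ≤ A.nm ϖ →
      Q.n (P (c + s • x) x - P c x) ≤ B * A.nm s) {c : σ → E} (hc : c ∈ S) {w x : σ → E}
    (hw : ∀ i, A.nm (w i) ≤ 1) (hx : ∀ i, A.nm (x i) ≤ 1) {s : E} (hs : A.nm s ≤ A.nm ϖ) :
    Q.n ((P (c + s • w) x - P c x) - (P (c - s • x) w - P c w)) ≤ B * A.nm s := by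
  have hc1 : c + s • w ∈ S := k3_mem hS hc hw hs
  have hc2 : c - s • x ∈ S := k3_mem' hS hc hx hs
  have hxw : ∀ i, A.nm ((x + w) i) ≤ 1 := fun i => (A.add _ _).trans (max_le (hx i) (hw i))
  have ha := hB c hc w hw s hs
  have hb := hB _ hc2 (x + w) hxw s hs
  have hcc := hB c hc x hx (-s) (by rw [A.neg]; exact hs)
  have e1 : c - s • x + s • (x + w) = c + s • w := by
    rw [smul_add]
    abel
  have e2 : c + (-s) • x = c - s • x := by rw [neg_smul, sub_eq_add_neg]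
  rw [e1] at hb
  rw [e2, A.neg] at hcc
  have e3 : (P (c + s • w) x - P c x) - (P (c - s • x) w - P c w) =
      (P (c + s • w) (x + w) - P (c - s • x) (x + w)) + (P (c - s • x) x - P c x) -
        (P (c + s • w) w - P c w) := by
    rw [h.add _ hc1, h.add _ hc2]
    abel
  rw [e3]
  refine (k3_sub Q _ _).trans (max_le ((Q.add _ _).trans (max_le hb hcc)) ha)

/-- Proof: `H (p s; w, x) = H (s; p w, x)`, up to `B nm s` equal to `H (s; - x, p w) = p H (s; - x, w)`, which is `p H (s; w, x)` up to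
`B nm (p s)` (`sym` twice; `H` is linear in the last argument). -/
theorem Lb.stp {B : ℝ} (hB0 : 0 < B) (h : Lb Q S D P) (h1 : A.nm ϖ < 1)
    (hS : ∀ c ∈ S, Ds A ϖ c ⊆ S)
    (hB : ∀ c ∈ S, ∀ x : σ → E, (∀ i, A.nm (x i) ≤ 1) → ∀ s, A.nm s ≤ A.nm ϖ →
      Q.n (P (c + s • x) x - P c x) ≤ B * A.nm s) {c : σ → E} (hc : c ∈ S) {w x : σ → E}
    (hw : ∀ i, A.nm (w i) ≤ 1) (hx : ∀ i, A.nm (x i) ≤ 1) {s p : E} (hs : A.nm s ≤ A.nm ϖ)
    (hp : A.nm p ≤ 1) :
    Q.n (P (c + (p * s) • w) x - P c x) ≤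
      max (A.nm p * Q.n (P (c + s • w) x - P c x)) (B * A.nm s) := by
  have hpw : ∀ i, A.nm ((p • w) i) ≤ 1 := fun i => by
    rw [Pi.smul_apply, smul_eq_mul, A.mul]
    exact mul_le_one₀ hp (A.nonneg _) (hw i)
  have hc2 : c - s • x ∈ S := k3_mem' hS hc hx hs
  have h2 := h.sym h1 hS hB hc hpw hx hs
  have h3 := h.sym h1 hS hB hc hw hx hs
  have e1 : (p * s) • w = s • p • w := by rw [smul_smul, mul_comm]
  rw [h.smul _ hc2, h.smul _ hc, ← e1] at h2
  have e2 : P (c + (p * s) • w) x - P c x =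
      (P (c + (p * s) • w) x - P c x - (p • P (c - s • x) w - p • P c w)) -
        p • ((P (c + s • w) x - P c x) - (P (c - s • x) w - P c w)) +
        p • (P (c + s • w) x - P c x) := by
    simp only [smul_sub]
    abel
  rw [e2]
  refine (Q.add _ _).trans (max_le ((k3_sub Q _ _).trans (max_le ?_ ?_)) ?_)
  · exact h2.trans (le_max_right _ _)
  · rw [Q.smul]
    refine le_trans ?_ (le_max_right _ _)
    calc A.nm p * Q.n ((P (c + s • w) x - P c x) - (P (c - s • x) w - P c w)) ≤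
        1 * Q.n ((P (c + s • w) x - P c x) - (P (c - s • x) w - P c w)) :=
          mul_le_mul_of_nonneg_right hp (Q.nonneg _)
      _ ≤ B * A.nm s := by rw [one_mul]; exact h3
  · rw [Q.smul]
    exact le_max_left _ _

end PL
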